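import Mathlib
import Pool.Agent.Lib.MP_5f1228_co.RO

/-!
# MP_5f1228_co, exact threshold for large `n`: colour structure of good sets
-/

set_option autoImplicit false

open Finset

namespace Pool.Agent.MP5f1228.Ex

section

variable {V : Type*} [DecidableEq V] {r : ℕ}

/-- `Y` is the disjoint union of sets `W i` with `g i (W i)` -/
def Gd (g : Fin r → Finset V → Prop) (Y : Finset V) : Prop :=
  ∃ W : Fin r → Finset V, (∀ i, g i (W i)) ∧ (∀ i j, i ≠ j → Disjoint (W i) (W j)) ∧
    univ.biUnion W = Y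

/-- `v` is attached by `S` in colour `i` -/
def Atc (g : Fin r → Finset V → Prop) (i : Fin r) (v : V) (S : Finset V) : Prop :=
  ∃ P ⊆ S.erase v, g i P ∧ g i (insert v P)

/-- `v` is attached by `S` in some colour -/
def Atr (g : Fin r → Finset V → Prop) (v : V) (S : Finset V) : Prop := ∃ i, Atc g i v S

theorem Atc.mono {g : Fin r → Finset V → Prop} {i : Fin r} {v : V} {S T : Finset V} (h : S ⊆ T)
    (hA : Atc g i v S) : Atc g i v T := by
  obtain ⟨P, hP, h1⟩ := hA
  exact ⟨P, hP.trans (erase_subset_erase v h), h1⟩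

theorem Atr.mono {g : Fin r → Finset V → Prop} {v : V} {S T : Finset V} (h : S ⊆ T)
    (hA : Atr g v S) : Atr g v T := by
  obtain ⟨i, hi⟩ := hA
  exact ⟨i, hi.mono h⟩

theorem Gd.one {g : Fin r → Finset V → Prop} (hg0 : ∀ i, g i ∅) {i : Fin r} {P : Finset V}
    (h : g i P) : Gd g P := by
  refine ⟨fun j => if j = i then P else ∅, ?_, ?_, ?_⟩
  · intro j
    by_cases hj : j = i
    · subst hj
      simp only [if_true]
      exact h
    · simp only [if_neg hj]
      exact hg0 j
  · intro j k hjk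
    by_cases hj : j = i
    · have hk : ¬ k = i := fun e => hjk (hj.trans e.symm)
      simp only [if_neg hk]
      exact disjoint_empty_right _
    · simp only [if_neg hj]
      exact disjoint_empty_left _
  · ext z
    simp only [mem_biUnion, mem_univ, true_and]
    constructor
    · rintro ⟨j, hj⟩
      by_cases hji : j = i
      · rwa [if_pos hji] at hj
      · rw [if_neg hji] at hj
        exact absurd hj (notMem_empty z)
    · intro hz
      exact ⟨i, by rwa [if_pos rfl]⟩

theorem Gd.empty {g : Fin r → Finset V → Prop} (hg0 : ∀ i, g i ∅) : Gd g ∅ := by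
  refine ⟨fun _ => ∅, hg0, fun i j _ => disjoint_empty_right _, ?_⟩
  ext z
  simp

theorem Gd.union {g : Fin r → Finset V → Prop} (hgU : ∀ i P P', g i P → g i P' → g i (P ∪ P'))
    {Y Y' : Finset V} (h : Gd g Y) (h' : Gd g Y') (hd : Disjoint Y Y') : Gd g (Y ∪ Y') := by
  obtain ⟨W, h1, h2, h3⟩ := h
  obtain ⟨W', h1', h2', h3'⟩ := h'
  have hs : ∀ i, W i ⊆ Y := by
    intro i z hz
    rw [← h3, mem_biUnion]
    exact ⟨i, mem_univ i, hz⟩
  have hs' : ∀ i, W' i ⊆ Y' := by
    intro i z hz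
    rw [← h3', mem_biUnion]
    exact ⟨i, mem_univ i, hz⟩
  refine ⟨fun i => W i ∪ W' i, fun i => hgU i _ _ (h1 i) (h1' i), ?_, ?_⟩
  · intro i j hij
    rw [disjoint_union_left, disjoint_union_right, disjoint_union_right]
    exact ⟨⟨h2 i j hij, (hd.mono_left (hs i)).mono_right (hs' j)⟩,
      ⟨(hd.symm.mono_left (hs' i)).mono_right (hs j), h2' i j hij⟩⟩
  · ext z
    rw [← h3, ← h3']
    simp only [mem_biUnion, mem_union, mem_univ, true_and]
    constructor
    · rintro ⟨i, hi | hi⟩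
      · exact Or.inl ⟨i, hi⟩
      · exact Or.inr ⟨i, hi⟩
    · rintro (⟨i, hi⟩ | ⟨i, hi⟩)
      · exact ⟨i, Or.inl hi⟩
      · exact ⟨i, Or.inr hi⟩

theorem Atr.att {g : Fin r → Finset V → Prop} (hg0 : ∀ i, g i ∅) {v : V} {S : Finset V}
    (h : Atr g v S) : RO.Att (Gd g) v S := by
  obtain ⟨i, P, hP, h1, h2⟩ := h
  exact ⟨P, hP, Gd.one hg0 h1, Gd.one hg0 h2⟩

end

end Pool.Agent.MP5f1228.Ex
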