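import Mathlib
import Pool.Agent.Lib.MP_5f1228_co.Asy.Defs
import Pool.Agent.Lib.MP_5f1228_co.Asy.Att
import Pool.Agent.Lib.MP_5f1228_co.Ex.Defs

/-!
# MP_5f1228_co, exact threshold: colour structure of the good sets of a system (module ATT2)
-/

set_option autoImplicit false

open scoped Classical
open Finset

namespace Pool.Agent.MP5f1228.Ex

open Asy
open Pool.Agent.MP5f1228B (Con)

/-- every point of `P` is reached from `y` in colour `i` inside `P` -/
def gS {r : ℕ} {X Z L : Type} (S : Sys r X Z L) (y : X) (i : Fin r) (P : Finset Z) : Prop :=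
  ∀ z ∈ P, S.Rch i y P (Sum.inr z)

theorem gS_empty {r : ℕ} {X Z L : Type} (S : Sys r X Z L) (y : X) (i : Fin r) :
    gS S y i ∅ := fun z hz => absurd hz (notMem_empty z)

theorem gS_union {r : ℕ} {X Z L : Type} (S : Sys r X Z L) (y : X) (i : Fin r)
    (P P' : Finset Z) (h : gS S y i P) (h' : gS S y i P') : gS S y i (P ∪ P') := by
  intro z hz
  rcases mem_union.1 hz with hz | hz
  · exact Att_rch_mono S i y subset_union_left _ (h z hz)
  · exact Att_rch_mono S i y subset_union_right _ (h' z hz)

theorem good_iff {r : ℕ} {X Z L : Type} (S : Sys r X Z L) (y : X) (Y : Finset Z) :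
    S.Good y Y ↔ Gd (gS S y) Y := Iff.rfl

/-- module ATT2 -/
theorem atr_of_rch {r : ℕ} {X Z L : Type} (S : Sys r X Z L) (y : X) (i : Fin r) (z : Z)
    (W : Finset Z) (h : S.Rch i y (insert z W) (Sum.inr z)) : Atr (gS S y) z W := by
  set P : Finset Z := (W.erase z).filter (fun z' => S.Rch i y (W.erase z) (Sum.inr z')) with hP
  have hP1 : ∀ z' ∈ P, S.Rch i y P (Sum.inr z') := fun z' hz' =>
    Att_inside S y i (W.erase z) (Sum.inr z') (mem_filter.mp hz').2
  have key : ∀ p, S.Rch i y (insert z W) p →
      S.Rch i y (insert z P) (Sum.inr z) ∨ S.Rch i y (W.erase z) p := by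
    intro p hp
    unfold Sys.Rch Pool.Agent.MP5f1228B.Con at hp
    induction hp with
    | refl => exact Or.inr Relation.ReflTransGen.refl
    | @tail p p' hpp hpp' ih =>
      rcases ih with ih | ih
      · exact Or.inl ih
      · by_cases hz : p' = Sum.inr z
        · left
          subst hz
          have h1 : S.Rch i y (insert z P) p :=
            Att_rch_mono S i y (subset_insert z P) _ (Att_inside S y i (W.erase z) p ih)
          exact Con.tail h1 hpp'.1 (mem_insert_self z P)
        · right
          refine Con.tail ih hpp'.1 ?_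
          rcases p' with x | z'
          · exact hpp'.2
          · have h2 : z' ∈ insert z W := hpp'.2
            have h3 : z' ≠ z := fun e => hz (by rw [e])
            exact mem_erase.mpr ⟨h3, (mem_insert.mp h2).resolve_left h3⟩
  have hz : S.Rch i y (insert z P) (Sum.inr z) := by
    rcases key _ h with h1 | h1
    · exact h1
    · exfalso
      rcases Con.end_mem h1 with h2 | h2
      · exact Sum.inr_ne_inl h2
      · exact notMem_erase z W h2
  refine ⟨i, P, filter_subset _ _, hP1, ?_⟩
  intro z' hz'
  rcases mem_insert.mp hz' with h1 | h1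
  · rw [h1]
    exact hz
  · exact Att_rch_mono S i y (subset_insert z P) _ (hP1 z' h1)

theorem atr_of_cov {r : ℕ} {X Z L : Type} (S : Sys r X Z L) (y : X) (z : Z)
    (W : Finset Z) (h : S.Cov y z) : Atr (gS S y) z W := by
  obtain ⟨i, hi⟩ := h
  refine ⟨i, ∅, empty_subset _, gS_empty S y i, ?_⟩
  intro z' hz'
  have h1 : z' = z := by
    rcases mem_insert.mp hz' with h1 | h1
    · exact h1
    · exact absurd h1 (notMem_empty z')
  subst h1
  exact Con.single (A := S.Edge i) hi hz'

end Pool.Agent.MP5f1228.Ex
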