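import Mathlib
import Pool.Agent.Lib.MP_5f1228_co.RO
import Pool.Agent.Lib.MP_5f1228_co.Ex.Defs

/-!
# MP_5f1228_co, exact threshold: the colour block inequality (module BLOCK)
-/

set_option autoImplicit false

open Finset

namespace Pool.Agent.MP5f1228.Ex

open RO

section general

variable {V : Type*} [DecidableEq V]

theorem tt_anti {A A' : Finset V → Prop} (h : ∀ S, A S → A' S) (R S : Finset V) :
    tt A' R S ≤ tt A R S := by
  induction hn : R.card using Nat.strong_induction_on generalizing R S with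
  | _ n ih =>
    by_cases h' : A' S
    · rw [tt_of A' R h']
      exact tt_nonneg _ _ _
    · have h0 : ¬ A S := fun h1 => h' (h _ h1)
      have h1 := tt_of_not A' R h'
      have h2 := tt_of_not A R h0
      have h3 : ∑ y ∈ R, tt A' (R.erase y) (insert y S) ≤
          ∑ y ∈ R, tt A (R.erase y) (insert y S) := by
        refine sum_le_sum fun y hy => ih _ ?_ _ _ rfl
        rw [← hn]
        exact card_erase_lt_of_mem hy
      have h4 : (0 : ℝ) < (R.card : ℝ) + 1 := by positivity
      nlinarith

theorem tt_erase {A : Finset V → Prop} (hA : ∀ S T, S ⊆ T → A S → A T) (R S : Finset V) {y : V}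
    (hy : y ∈ R) : tt A R S ≤ tt A (R.erase y) S := by
  induction hn : R.card using Nat.strong_induction_on generalizing R S with
  | _ n ih =>
    by_cases h : A S
    · rw [tt_of A _ h, tt_of A _ h]
    · have h1 := tt_of_not A R h
      have h2 := tt_of_not A (R.erase y) h
      rw [card_erase_of_mem hy, Nat.cast_sub (card_pos.2 ⟨y, hy⟩)] at h2
      simp only [Nat.cast_one, sub_add_cancel] at h2
      rw [← add_sum_erase R _ hy] at h1
      have h3 : ∑ z ∈ R.erase y, tt A (R.erase z) (insert z S) ≤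
          ∑ z ∈ R.erase y, tt A ((R.erase y).erase z) (insert z S) := by
        refine sum_le_sum fun z hz => ?_
        rw [mem_erase] at hz
        have := ih (R.erase z).card (by rw [← hn]; exact card_erase_lt_of_mem hz.2) (R.erase z)
          (insert z S) (mem_erase.2 ⟨fun e => hz.1 e.symm, hy⟩) rfl
        rwa [erase_right_comm] at this
      have h4 : tt A (R.erase y) (insert y S) ≤ tt A (R.erase y) S :=
        tt_mono hA _ (subset_insert y S)
      have h5 : (0 : ℝ) < (R.card : ℝ) + 1 := by positivity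
      refine le_of_mul_le_mul_left ?_ h5
      linarith

theorem tt_subset {A : Finset V → Prop} (hA : ∀ S T, S ⊆ T → A S → A T) {R R' : Finset V}
    (S : Finset V) (h : R' ⊆ R) : tt A R S ≤ tt A R' S := by
  induction hn : R.card using Nat.strong_induction_on generalizing R with
  | _ n ih =>
    by_cases he : R ⊆ R'
    · rw [Subset.antisymm h he]
    · obtain ⟨y, hy, hy'⟩ := not_subset.1 he
      refine (tt_erase hA R S hy).trans (ih (R.erase y).card ?_ ?_ rfl)
      · rw [← hn]
        exact card_erase_lt_of_mem hy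
      · intro x hx
        exact mem_erase.2 ⟨fun e => hy' (e ▸ hx), h hx⟩

theorem tt_cur {A : Finset V → Prop} (hA : ∀ S T, S ⊆ T → A S → A T) {u : V} {R S : Finset V}
    (h : ¬ A S) :
    1 + ∑ y ∈ R, tt A ((R.erase y).erase u) (insert y S) ≤
      ((R.card : ℝ) + 1) * tt A (R.erase u) S := by
  by_cases hu : u ∈ R
  · have h1 := tt_of_not A (R.erase u) h
    rw [card_erase_of_mem hu, Nat.cast_sub (card_pos.2 ⟨u, hu⟩)] at h1
    simp only [Nat.cast_one, sub_add_cancel] at h1
    rw [← add_sum_erase R _ hu]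
    have h2 : tt A ((R.erase u).erase u) (insert u S) ≤ tt A (R.erase u) S := by
      rw [erase_idem]
      exact tt_mono hA _ (subset_insert u S)
    have h3 : ∑ y ∈ R.erase u, tt A ((R.erase y).erase u) (insert y S) =
        ∑ y ∈ R.erase u, tt A ((R.erase u).erase y) (insert y S) :=
      sum_congr rfl fun y _ => by rw [erase_right_comm]
    rw [h3]
    linarith
  · rw [erase_eq_of_notMem hu, tt_of_not A R h]
    refine le_of_eq ?_
    congr 1
    refine sum_congr rfl fun y _ => ?_
    rw [erase_eq_of_notMem (fun h1 => hu (mem_of_mem_erase h1))]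

theorem tt_wait (A : Finset V → Prop) (v : V) (R S : Finset V) :
    ∑ y ∈ R, tt A ((R.erase y).erase v) S ≤ ((R.card : ℝ) + 1) * tt A (R.erase v) S := by
  by_cases hu : v ∈ R
  · have h1 := sum_tt_le A (R.erase v) S
    rw [card_erase_of_mem hu, Nat.cast_sub (card_pos.2 ⟨v, hu⟩)] at h1
    simp only [Nat.cast_one, sub_add_cancel] at h1
    rw [← add_sum_erase R _ hu, erase_idem]
    have h3 : ∑ y ∈ R.erase v, tt A ((R.erase y).erase v) S =
        ∑ y ∈ R.erase v, tt A ((R.erase v).erase y) S :=
      sum_congr rfl fun y _ => by rw [erase_right_comm]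
    rw [h3]
    linarith
  · rw [erase_eq_of_notMem hu]
    refine le_trans (le_of_eq ?_) (sum_tt_le A R S)
    refine sum_congr rfl fun y _ => ?_
    rw [erase_eq_of_notMem (fun h1 => hu (mem_of_mem_erase h1))]

end general

section block

variable {V : Type*} [DecidableEq V] {r : ℕ} {g : Fin r → Finset V → Prop}

/-- give the whole block `B` to colour `i` and go on with the packing argument -/
theorem block_key (hg0 : ∀ i, g i ∅) (hgU : ∀ i P P', g i P → g i P' → g i (P ∪ P'))
    {Y : Finset V} (hY : ¬ Gd g Y) {R B : Finset V} (hRB : R ∪ B = Y) (hd : Disjoint R B)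
    (i : Fin r) :
    1 ≤ ∑ v ∈ Y, open Classical in
      if Atc g i v B then 0 else tt (Atr g v) (R.erase v) ∅ := by
  classical
  -- the largest good subset of `B`
  set W : Finset V := (B.powerset.filter (fun P => g i P)).biUnion id with hW
  have hWB : W ⊆ B := by
    intro x hx
    obtain ⟨P, hP, hxP⟩ := mem_biUnion.1 hx
    exact (mem_powerset.1 (mem_filter.1 hP).1) hxP
  have hgB : ∀ (s : Finset (Finset V)), (∀ P ∈ s, g i P) → g i (s.biUnion id) := by
    intro s
    induction s using Finset.induction_on with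
    | empty =>
      intro _
      simpa using hg0 i
    | insert a s _ ih =>
      intro h
      rw [biUnion_insert]
      exact hgU i _ _ (h a (mem_insert_self a s)) (ih fun P hP => h P (mem_insert_of_mem hP))
  have hgW : g i W := hgB _ fun P hP => (mem_filter.1 hP).2
  have hmax : ∀ P ⊆ B, g i P → P ⊆ W := by
    intro P hP h x hx
    exact mem_biUnion.2 ⟨P, mem_filter.2 ⟨mem_powerset.2 hP, h⟩, hx⟩
  -- served points
  set X : Finset V := (Y \ W).filter (fun v => Atc g i v B) with hX
  have hsv : ∀ X' ⊆ X, Disjoint X' W → Gd g (W ∪ X') := by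
    intro X' hX' _
    refine Gd.one (i := i) hg0 ?_
    have h1 : ∀ v ∈ X', g i (W ∪ {v}) := by
      intro v hv
      have h2 := mem_filter.1 (hX' hv)
      obtain ⟨P, hP, h3, h4⟩ := h2.2
      have hPW : P ⊆ W := hmax P (hP.trans (erase_subset v B)) h3
      have h5 : W ∪ {v} = W ∪ insert v P := by
        ext x
        simp only [mem_union, mem_singleton, mem_insert]
        constructor
        · rintro (h | h)
          · exact Or.inl h
          · exact Or.inr (Or.inl h)
        · rintro (h | h | h)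
          · exact Or.inl h
          · exact Or.inr h
          · exact Or.inl (hPW h)
      rw [h5]
      exact hgU i _ _ hgW h4
    induction X' using Finset.induction_on with
    | empty => simpa using hgW
    | insert a s _ ih =>
      have h2 : W ∪ insert a s = (W ∪ {a}) ∪ (W ∪ s) := by
        ext x
        simp only [mem_union, mem_singleton, mem_insert]
        tauto
      rw [h2]
      refine hgU i _ _ (h1 a (mem_insert_self a s)) (ih ?_ ?_ ?_)
      · exact fun x hx => hX' (mem_insert_of_mem hx)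
      · exact Disjoint.mono_left (subset_insert a s) (by assumption)
      · exact fun v hv => h1 v (mem_insert_of_mem hv)
  set U : Finset V := Y \ (W ∪ X) with hU
  have hWY : W ⊆ Y := fun x hx => by
    rw [← hRB]
    exact mem_union_right _ (hWB hx)
  have hXY : X ⊆ Y := fun x hx => (mem_sdiff.1 (mem_filter.1 hx).1).1
  rcases U.eq_empty_or_nonempty with hUe | ⟨u, hu⟩
  · exfalso
    apply hY
    have h1 : W ∪ X = Y := by
      refine Subset.antisymm (union_subset hWY hXY) ?_
      rw [hU, sdiff_eq_empty_iff_subset] at hUe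
      exact hUe
    rw [← h1]
    refine hsv X Subset.rfl ?_
    rw [disjoint_left]
    intro x hx hxW
    exact (mem_sdiff.1 (mem_filter.1 hx).1).2 hxW
  · have h := packing (G := Gd g) (fun S T hS hT hST => Gd.union hgU hS hT hST) hY R ∅ u
      (U.erase u) W X (disjoint_empty_right R) (by
        rw [union_empty]
        exact (hd.mono_right hWB).symm) hsv (by
        rw [insert_erase hu, hU]
        exact union_sdiff_of_subset (union_subset hWY hXY)) (empty_subset Y) (by
        rw [← hRB]
        exact subset_union_left)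
    have h2 : tt (Att (Gd g) u) (R.erase u) ∅ + ∑ v ∈ U.erase u, tt (Att (Gd g) v) (R.erase v) ∅ =
        ∑ v ∈ U, tt (Att (Gd g) v) (R.erase v) ∅ :=
      add_sum_erase U (fun v => tt (Att (Gd g) v) (R.erase v) ∅) hu
    rw [h2] at h
    refine h.trans ?_
    have h3 : ∑ v ∈ U, tt (Att (Gd g) v) (R.erase v) ∅ ≤
        ∑ v ∈ U, (if Atc g i v B then 0 else tt (Atr g v) (R.erase v) ∅) := by
      refine sum_le_sum fun v hv => ?_
      have h4 := mem_sdiff.1 hv
      have h5 : ¬ Atc g i v B := by
        intro h5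
        apply h4.2
        by_cases hvW : v ∈ W
        · exact mem_union_left _ hvW
        · exact mem_union_right _ (mem_filter.2 ⟨mem_sdiff.2 ⟨h4.1, hvW⟩, h5⟩)
      rw [if_neg h5]
      exact tt_anti (fun S hS => Atr.att hg0 hS) _ _
    refine h3.trans (sum_le_sum_of_subset_of_nonneg sdiff_subset fun v _ _ => ?_)
    split_ifs
    · exact le_rfl
    · exact tt_nonneg _ _ _

open Classical in
/-- sum over the colours -/
theorem block_sum (hg0 : ∀ i, g i ∅) (hgU : ∀ i P P', g i P → g i P' → g i (P ∪ P'))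
    {Y : Finset V} (hY : ¬ Gd g Y) {R B : Finset V} (hRB : R ∪ B = Y) (hd : Disjoint R B) :
    (r : ℝ) ≤ ∑ v ∈ Y, ((r : ℝ) - (if Atr g v B then 1 else 0)) *
      tt (Atr g v) (R.erase v) ∅ := by
  have h1 : ∑ _i : Fin r, (1 : ℝ) ≤ ∑ i : Fin r, ∑ v ∈ Y,
      (if Atc g i v B then 0 else tt (Atr g v) (R.erase v) ∅) :=
    sum_le_sum fun i _ => block_key hg0 hgU hY hRB hd i
  have h2 : ∑ _i : Fin r, (1 : ℝ) = r := by simp
  rw [h2, sum_comm] at h1
  refine h1.trans (sum_le_sum fun v _ => ?_)
  have ht := tt_nonneg (Atr g v) (R.erase v) ∅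
  by_cases h : Atr g v B
  · obtain ⟨i, hi⟩ := h
    rw [if_pos ⟨i, hi⟩, ← add_sum_erase univ _ (mem_univ i), if_pos hi, zero_add]
    have h3 : ∑ j ∈ univ.erase i, (if Atc g j v B then 0 else tt (Atr g v) (R.erase v) ∅) ≤
        ∑ _j ∈ univ.erase i, tt (Atr g v) (R.erase v) ∅ := by
      refine sum_le_sum fun j _ => ?_
      split_ifs
      · exact ht
      · exact le_rfl
    refine h3.trans (le_of_eq ?_)
    rw [sum_const, card_erase_of_mem (mem_univ i), card_univ, Fintype.card_fin, nsmul_eq_mul,
      Nat.cast_sub (Nat.succ_le_of_lt (Nat.pos_of_ne_zero (by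
        rintro rfl
        exact i.elim0)))]
    simp
  · rw [if_neg h, sub_zero]
    have h3 : ∑ j : Fin r, (if Atc g j v B then 0 else tt (Atr g v) (R.erase v) ∅) ≤
        ∑ _j : Fin r, tt (Atr g v) (R.erase v) ∅ := by
      refine sum_le_sum fun j _ => ?_
      split_ifs
      · exact ht
      · exact le_rfl
    refine h3.trans (le_of_eq ?_)
    rw [sum_const, card_univ, Fintype.card_fin, nsmul_eq_mul]

/-- the inequality of `block_sum` for a random block of `L` points -/
theorem block_ind (hg0 : ∀ i, g i ∅) (hgU : ∀ i P P', g i P → g i P' → g i (P ∪ P'))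
    {Y : Finset V} (hY : ¬ Gd g Y) (L : ℕ) (R S : Finset V) (hRS : R ∪ S = Y)
    (hd : Disjoint R S) (hL : L ≤ R.card) :
    (r : ℝ) ≤ r * ∑ v ∈ Y, (((R.card : ℝ) + 1) / ((R.card : ℝ) + 1 - L)) *
        tt (Atr g v) (R.erase v) ∅ -
      ∑ v ∈ Y, tt (Atr g v) (Y.erase v) ∅ *
        (1 - min 1 (((R.card : ℝ) + 1) / ((L : ℝ) + 1) * tt (Atr g v) (R.erase v) S)) := by
  classical
  induction L generalizing R S with
  | zero =>
    have h1 := block_sum hg0 hgU hY hRS hd
    have hc : (0 : ℝ) < (R.card : ℝ) + 1 := by positivity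
    refine h1.trans ?_
    rw [mul_sum, ← sum_sub_distrib]
    refine sum_le_sum fun v _ => ?_
    simp only [Nat.cast_zero, sub_zero, zero_add, div_one, div_self hc.ne', one_mul]
    rw [sub_mul]
    refine sub_le_sub_left ?_ _
    have ht : tt (Atr g v) (Y.erase v) ∅ ≤ tt (Atr g v) (R.erase v) ∅ := by
      refine tt_subset (fun _ _ => Atr.mono) ∅ (erase_subset_erase v ?_)
      rw [← hRS]
      exact subset_union_left
    by_cases h : Atr g v S
    · rw [if_pos h, tt_of (Atr g v) _ h, mul_zero, one_mul]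
      simp only [zero_le_one, inf_of_le_right, sub_zero, mul_one]
      exact ht
    · rw [if_neg h, zero_mul]
      have h2 := tt_cur (A := Atr g v) (fun _ _ => Atr.mono) (u := v) (R := R) h
      have h3 : 0 ≤ ∑ y ∈ R, tt (Atr g v) ((R.erase y).erase v) (insert y S) :=
        sum_nonneg fun y _ => tt_nonneg _ _ _
      rw [min_eq_left (by linarith), sub_self, mul_zero]
  | succ L ih =>
    have hc : (0 : ℝ) < (R.card : ℝ) := by
      have : 0 < R.card := by omega
      exact_mod_cast this
    have hLc : (L : ℝ) + 1 ≤ (R.card : ℝ) := by exact_mod_cast hL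
    have h1 : ∀ y ∈ R, (r : ℝ) ≤ r * ∑ v ∈ Y, ((R.card : ℝ) / ((R.card : ℝ) - L)) *
        tt (Atr g v) ((R.erase y).erase v) ∅ -
      ∑ v ∈ Y, tt (Atr g v) (Y.erase v) ∅ *
        (1 - min 1 ((R.card : ℝ) / ((L : ℝ) + 1) *
          tt (Atr g v) ((R.erase y).erase v) (insert y S))) := by
      intro y hy
      have hcard : (R.erase y).card = R.card - 1 := card_erase_of_mem hy
      have h2 := ih (R.erase y) (insert y S) (by
          rw [← hRS]
          ext x
          simp only [mem_union, mem_erase, mem_insert]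
          constructor
          · rintro (⟨_, h⟩ | (h | h))
            · exact Or.inl h
            · exact Or.inl (h ▸ hy)
            · exact Or.inr h
          · rintro (h | h)
            · by_cases hxy : x = y
              · exact Or.inr (Or.inl hxy)
              · exact Or.inl ⟨hxy, h⟩
            · exact Or.inr (Or.inr h)) (by
          rw [disjoint_insert_right]
          exact ⟨notMem_erase y R, hd.mono_left (erase_subset y R)⟩) (by omega)
      have h3 : (((R.erase y).card : ℕ) : ℝ) + 1 = R.card := by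
        rw [hcard, Nat.cast_sub (by omega)]
        simp
      rw [h3] at h2
      exact h2
    have h2 := sum_le_sum h1
    rw [sum_const, nsmul_eq_mul, sum_sub_distrib, ← mul_sum, sum_comm, sum_comm (s := R)] at h2
    refine le_of_mul_le_mul_left ?_ hc
    refine h2.trans ?_
    rw [mul_sub]
    refine sub_le_sub ?_ ?_
    · -- waiting
      rw [mul_left_comm]
      refine mul_le_mul_of_nonneg_left ?_ (Nat.cast_nonneg r)
      rw [mul_sum]
      refine sum_le_sum fun v _ => ?_
      rw [← mul_sum]
      have h3 := tt_wait (Atr g v) v R ∅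
      have h4 : (0 : ℝ) < (R.card : ℝ) - L := by linarith
      have h5 : (R.card : ℝ) / ((R.card : ℝ) - L) *
          ∑ y ∈ R, tt (Atr g v) ((R.erase y).erase v) ∅ ≤
          (R.card : ℝ) / ((R.card : ℝ) - L) *
          (((R.card : ℝ) + 1) * tt (Atr g v) (R.erase v) ∅) :=
        mul_le_mul_of_nonneg_left h3 (div_nonneg hc.le h4.le)
      refine h5.trans (le_of_eq ?_)
      push_cast
      have h6 : (R.card : ℝ) + 1 - ((L : ℝ) + 1) = (R.card : ℝ) - L := by ring
      rw [h6]
      field_simp
    · rw [mul_sum]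
      refine sum_le_sum fun v _ => ?_
      rw [← mul_sum, mul_left_comm]
      refine mul_le_mul_of_nonneg_left ?_ (tt_nonneg _ _ _)
      rw [sum_sub_distrib, sum_const, nsmul_eq_mul, mul_one, mul_sub, mul_one]
      refine sub_le_sub_left ?_ _
      set x : ℝ := ((R.card : ℝ) + 1) * tt (Atr g v) (R.erase v) S with hx
      have hx0 : 0 ≤ x := mul_nonneg (by positivity) (tt_nonneg _ _ _)
      have hx1 : ((R.card : ℝ) + 1) / (((L + 1 : ℕ) : ℝ) + 1) * tt (Atr g v) (R.erase v) S =
          x / ((L : ℝ) + 2) := by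
        rw [hx]
        push_cast
        rw [div_mul_eq_mul_div]
        congr 1
        ring
      rw [hx1]
      have hL2 : (0 : ℝ) < (L : ℝ) + 2 := by positivity
      by_cases h : Atr g v S
      · have h3 : ∀ y ∈ R, min 1 ((R.card : ℝ) / ((L : ℝ) + 1) *
            tt (Atr g v) ((R.erase y).erase v) (insert y S)) = 0 := by
          intro y _
          rw [tt_of (Atr g v) _ (h.mono (subset_insert y S)), mul_zero]
          simp
        rw [sum_congr rfl h3, sum_const_zero]
        exact mul_nonneg hc.le (le_min zero_le_one (div_nonneg hx0 hL2.le))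
      · have h3 := tt_cur (A := Atr g v) (fun _ _ => Atr.mono) (u := v) (R := R) h
        rw [← hx] at h3
        by_cases hxL : (L : ℝ) + 2 ≤ x
        · rw [min_eq_left ((one_le_div hL2).2 hxL), mul_one]
          have h4 : ∑ y ∈ R, min 1 ((R.card : ℝ) / ((L : ℝ) + 1) *
              tt (Atr g v) ((R.erase y).erase v) (insert y S)) ≤ ∑ _y ∈ R, (1 : ℝ) :=
            sum_le_sum fun y _ => min_le_left _ _
          simpa using h4
        · push Not at hxL
          rw [min_eq_right ((div_le_one hL2).2 hxL.le)]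
          have h4 : ∑ y ∈ R, min 1 ((R.card : ℝ) / ((L : ℝ) + 1) *
              tt (Atr g v) ((R.erase y).erase v) (insert y S)) ≤
              ∑ y ∈ R, (R.card : ℝ) / ((L : ℝ) + 1) *
              tt (Atr g v) ((R.erase y).erase v) (insert y S) :=
            sum_le_sum fun y _ => min_le_right _ _
          refine h4.trans ?_
          rw [← mul_sum, div_mul_eq_mul_div, mul_div_assoc]
          refine mul_le_mul_of_nonneg_left ?_ hc.le
          rw [div_le_div_iff₀ (by positivity) hL2]
          have h5 : ∑ y ∈ R, tt (Atr g v) ((R.erase y).erase v) (insert y S) ≤ x - 1 := by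
            linarith
          have h6 : (∑ y ∈ R, tt (Atr g v) ((R.erase y).erase v) (insert y S)) *
              ((L : ℝ) + 2) ≤ (x - 1) * ((L : ℝ) + 2) :=
            mul_le_mul_of_nonneg_right h5 hL2.le
          nlinarith

/-- module BLOCK: the colour block inequality -/
theorem block (hr : 1 ≤ r) (hg0 : ∀ i, g i ∅)
    (hgU : ∀ i P P', g i P → g i P' → g i (P ∪ P')) {Y : Finset V} (hY : ¬ Gd g Y) :
    (r : ℝ) ≤ (∑ v ∈ Y, tt (Atr g v) (Y.erase v) ∅) * ((r : ℝ) - 2 / 3) +
      4 * r * ∑ v ∈ Y, tt (Atr g v) (Y.erase v) ∅ ^ 2 := by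
  have hr1 : (1 : ℝ) ≤ r := by exact_mod_cast hr
  have hYc : 0 < Y.card := by
    rw [card_pos]
    rw [nonempty_iff_ne_empty]
    rintro rfl
    exact hY (Gd.empty hg0)
  set n := Y.card with hn
  set L := (n + 1) / (4 * r) with hL
  have hL1 : 4 * r * L ≤ n + 1 := Nat.mul_div_le (n + 1) (4 * r)
  have hL2 : n + 1 < 4 * r * (L + 1) := by
    have := Nat.lt_mul_div_succ (n + 1) (show 0 < 4 * r by omega)
    simpa using this
  have hLn : L ≤ n := by
    have h1 : 4 * L ≤ 4 * r * L := by nlinarith
    omega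
  have h := block_ind hg0 hgU hY L Y ∅ (union_empty Y) (disjoint_empty_right Y) hLn
  rw [← hn] at h
  have hL1' : 4 * (r : ℝ) * L ≤ (n : ℝ) + 1 := by exact_mod_cast hL1
  have hL2' : (n : ℝ) + 1 < 4 * (r : ℝ) * ((L : ℝ) + 1) := by exact_mod_cast hL2
  have hn1 : (1 : ℝ) ≤ n := by exact_mod_cast hYc
  have hpos : (0 : ℝ) < (n : ℝ) + 1 - L := by nlinarith
  have hr4 : (0 : ℝ) < 4 * (r : ℝ) - 1 := by linarith
  -- the two ratios
  have e1 : ((n : ℝ) + 1) / ((n : ℝ) + 1 - L) ≤ 1 + 1 / (3 * r) := by
    rw [div_le_iff₀ hpos]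
    have h3 : (1 + 1 / (3 * (r : ℝ))) * ((n : ℝ) + 1 - L) =
        ((3 * (r : ℝ) + 1) * ((n : ℝ) + 1 - L)) / (3 * r) := by
      field_simp
    rw [h3, le_div_iff₀ (by positivity)]
    nlinarith
  have e2 : ((n : ℝ) + 1) / ((L : ℝ) + 1) ≤ 4 * r := by
    rw [div_le_iff₀ (by positivity)]
    exact hL2'.le
  set θ : V → ℝ := fun v => tt (Atr g v) (Y.erase v) ∅ with hθ
  have hθ0 : ∀ v, 0 ≤ θ v := fun v => tt_nonneg _ _ _
  have h4 : (r : ℝ) * ∑ v ∈ Y, ((n : ℝ) + 1) / ((n : ℝ) + 1 - L) * θ v ≤
      ∑ v ∈ Y, (r + 1 / 3) * θ v := by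
    rw [mul_sum]
    refine sum_le_sum fun v _ => ?_
    rw [← mul_assoc]
    refine mul_le_mul_of_nonneg_right ?_ (hθ0 v)
    calc (r : ℝ) * (((n : ℝ) + 1) / ((n : ℝ) + 1 - L)) ≤ r * (1 + 1 / (3 * r)) :=
          mul_le_mul_of_nonneg_left e1 (by positivity)
      _ = r + 1 / 3 := by field_simp
  have h5 : ∑ v ∈ Y, (θ v - 4 * r * θ v ^ 2) ≤ ∑ v ∈ Y, θ v *
      (1 - min 1 (((n : ℝ) + 1) / ((L : ℝ) + 1) * θ v)) := by
    refine sum_le_sum fun v _ => ?_
    have h6 : min 1 (((n : ℝ) + 1) / ((L : ℝ) + 1) * θ v) ≤ 4 * r * θ v :=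
      (min_le_right _ _).trans (mul_le_mul_of_nonneg_right e2 (hθ0 v))
    have h7 : θ v * min 1 (((n : ℝ) + 1) / ((L : ℝ) + 1) * θ v) ≤ θ v * (4 * r * θ v) :=
      mul_le_mul_of_nonneg_left h6 (hθ0 v)
    have h8 : θ v * (1 - min 1 (((n : ℝ) + 1) / ((L : ℝ) + 1) * θ v)) =
        θ v - θ v * min 1 (((n : ℝ) + 1) / ((L : ℝ) + 1) * θ v) := by ring
    rw [h8]
    nlinarith
  have h9 : (r : ℝ) ≤ ∑ v ∈ Y, (r + 1 / 3) * θ v - ∑ v ∈ Y, (θ v - 4 * r * θ v ^ 2) :=
    h.trans (sub_le_sub h4 h5)
  rw [← mul_sum, sum_sub_distrib, ← mul_sum] at h9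
  linarith

end block

end Pool.Agent.MP5f1228.Ex
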