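import Mathlib
import Pool.Agent.Lib.MP_5f1228_co.Asy.CertRO

/-!
# MP_5f1228_co, exact threshold: certificates from a random order, general slack (module CERT2)
-/

set_option autoImplicit false

open scoped Classical
open Finset

namespace Pool.Agent.MP5f1228.Ex

open Asy

/-- module CERT2 -/
theorem cert2 {C Z : Type} [Fintype Z] (cov : C → Z → Prop)
    (att : C → Z → Finset Z → Prop) (hca : ∀ y z S, cov y z → att y z S) (m : ℕ)
    (hm : ∀ (k : ℕ) (y : Fin k → C) (z : Fin k → Z) (P : Fin k → Finset Z),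
      (∀ j l, j < l → cov (y l) (z j)) → (∀ j l, j < l → insert (z j) (P j) ⊆ P l) →
      (∀ l, ¬ att (y l) (z l) (P l)) → k ≤ m) (s : ℝ) (hs : 0 < s) :
    ∃ w : Z → ℝ, (∀ z, 0 ≤ w z) ∧ ∑ z, w z ≤ m / s ∧
      ∀ y, RO.ee (att y) univ ∅ ≤ 1 - s → 1 ≤ ∑ z ∈ univ.filter (fun z => ¬ cov y z), w z := by
  refine ⟨fun z => s⁻¹ * CertRO_W cov att univ ∅ ∅ z, ?_, ?_, ?_⟩
  · intro z
    have := CertRO_W_nonneg cov att univ ∅ ∅ z
    positivity
  · rw [← mul_sum, div_eq_inv_mul]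
    refine mul_le_mul_of_nonneg_left ?_ (inv_nonneg.2 hs.le)
    exact CertRO_mass cov att m hm univ ∅ ∅ ⟨0, by simp, fun l => l.elim0, fun l => l.elim0,
      fun l => l.elim0, fun j => j.elim0, fun j => j.elim0, fun j => j.elim0, fun j => j.elim0,
      fun j => j.elim0⟩
  · intro q hq
    have h1 := (CertRO_low cov att hca q univ ∅ ∅).1 (fun t ht => absurd ht (notMem_empty t))
    rw [← mul_sum, ← div_eq_inv_mul, le_div_iff₀ hs]
    linarith

end Pool.Agent.MP5f1228.Ex
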