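import Mathlib
import Pool.Agent.Lib.MP_5f1228_co.Asy.Defs

/-!
# MP_5f1228_co, exact threshold: extremal systems
-/

set_option autoImplicit false

open scoped Classical
open Finset

namespace Pool.Agent.MP5f1228.Ex

open Asy

/-- Extremal systems: `T` is a set of `2 ^ r` representatives of the words, `τ` is a perfect
matching of the words, matched words have no common letter, all other pairs of words have one. -/
structure ExS {r : ℕ} {X Z L : Type} [Fintype X] (S : Sys r X Z L) (D : ℕ) (T : Finset X)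
    (τ : X → X) : Prop where
  card : T.card = 2 ^ r
  memT : ∀ a ∈ T, τ a ∈ T
  perp : ∀ a ∈ T, ∀ i, S.κ i a ≠ S.κ i (τ a)
  meet : ∀ a ∈ T, ∀ b ∈ T, b ≠ τ a → ∃ i, S.κ i a = S.κ i b
  typ : ∀ x, ∃ a ∈ T, ∀ i, S.κ i a = S.κ i x
  act : ∀ i x, S.act i x
  big : ∀ a ∈ T, D < 2 * (univ.filter (fun x => ∀ i, S.κ i a = S.κ i x)).card
  thin : ∀ z, (∀ i x x', S.A i x z → S.A i x' z → S.κ i x = S.κ i x') →
    ∃ a ∈ T, ∀ i, S.A i a z

namespace ExS

variable {r : ℕ} {X Z L : Type} [Fintype X] {S : Sys r X Z L} {D : ℕ} {T : Finset X} {τ : X → X}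

theorem tautau (h : ExS S D T τ) {a : X} (ha : a ∈ T) : τ (τ a) = a := by
  by_contra hne
  obtain ⟨i, hi⟩ := h.meet (τ a) (h.memT a ha) a ha (fun e => hne e.symm)
  exact h.perp a ha i hi.symm

/-- different representatives have different words -/
theorem ne_word (h : ExS S D T τ) {a b : X} (ha : a ∈ T) (hb : b ∈ T)
    (hw : ∀ i, S.κ i a = S.κ i b) : a = b := by
  by_contra hne
  have h1 : b ≠ τ (τ a) := by
    rw [h.tautau ha]
    exact fun e => hne e.symm
  obtain ⟨i, hi⟩ := h.meet (τ a) (h.memT a ha) b hb h1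
  exact h.perp a ha i ((hw i).trans hi.symm)

theorem inj (h : ExS S D T τ) {a b : X} (ha : a ∈ T) (hb : b ∈ T) (hab : τ a = τ b) : a = b := by
  rw [← h.tautau ha, hab, h.tautau hb]

/-- representatives and points with the same word have the same thin neighbours -/
theorem A_iff (h : ExS S D T τ) {a x : X} {z : Z} {i : Fin r} (hax : S.κ i a = S.κ i x) :
    S.A i a z ↔ S.A i x z :=
  ⟨S.A_congr i a x z (h.act i a) hax, S.A_congr i x a z (h.act i x) hax.symm⟩

theorem cov_iff (h : ExS S D T τ) {a x : X} {z : Z} (hax : ∀ i, S.κ i a = S.κ i x) :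
    S.Cov a z ↔ S.Cov x z :=
  exists_congr fun i => h.A_iff (hax i)

/-- a thin point misses at most one word -/
theorem miss_unique (h : ExS S D T τ) (h2 : ∀ z, (univ.filter (fun x => ¬ S.Cov x z)).card ≤ D)
    {a b : X} (ha : a ∈ T) (hb : b ∈ T) {z : Z} (haz : ¬ S.Cov a z) (hbz : ¬ S.Cov b z) :
    a = b := by
  by_contra hne
  have h3 : Disjoint (univ.filter (fun x => ∀ i, S.κ i a = S.κ i x))
      (univ.filter (fun x => ∀ i, S.κ i b = S.κ i x)) := by
    rw [disjoint_left]
    intro x hx hx'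
    exact hne (h.ne_word ha hb fun i => ((mem_filter.1 hx).2 i).trans
      ((mem_filter.1 hx').2 i).symm)
  have h4 : (univ.filter (fun x => ∀ i, S.κ i a = S.κ i x)) ∪
      (univ.filter (fun x => ∀ i, S.κ i b = S.κ i x)) ⊆ univ.filter (fun x => ¬ S.Cov x z) := by
    intro x hx
    rw [mem_filter]
    refine ⟨mem_univ _, ?_⟩
    rcases mem_union.1 hx with hx | hx
    · exact fun hc => haz ((h.cov_iff (mem_filter.1 hx).2).2 hc)
    · exact fun hc => hbz ((h.cov_iff (mem_filter.1 hx).2).2 hc)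
  have h5 := card_le_card h4
  rw [card_union_of_disjoint h3] at h5
  have h6 := h2 z
  have h7 := h.big a ha
  have h8 := h.big b hb
  omega

end ExS

end Pool.Agent.MP5f1228.Ex
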