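import Mathlib
import Pool.Agent.Lib.MP_5f1228_co.RO

/-!
# MP_5f1228_co, exact threshold: the first failure inequality (module FF)
-/

set_option autoImplicit false

open Finset

namespace Pool.Agent.MP5f1228.Ex

open RO

variable {V : Type*} [DecidableEq V]

/-- `P(all attached) <= P(u attached)` -/
theorem FF_ee_le (att : V → Finset V → Prop) (R S : Finset V) {u : V} (hu : u ∈ R) :
    ee att R S ≤ 1 - tt (att u) (R.erase u) S := by
  classical
  induction hn : R.card using Nat.strong_induction_on generalizing R S with
  | _ n ih =>
    have hne : R.Nonempty := ⟨u, hu⟩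
    have h2 : (0 : ℝ) < R.card := by exact_mod_cast hne.card_pos
    have h1 : ∀ (R' S' : Finset V), ee att R' S' ≤ 1 := by
      intro R' S'
      induction hn' : R'.card using Nat.strong_induction_on generalizing R' S' with
      | _ n' ih' =>
        rcases R'.eq_empty_or_nonempty with rfl | hne'
        · rw [ee_empty]
        · have h2' : (0 : ℝ) < R'.card := by exact_mod_cast hne'.card_pos
          refine le_of_mul_le_mul_left ?_ h2'
          rw [ee_eq att S' hne']
          have h3 : (R'.card : ℝ) * 1 = ∑ y ∈ R', (1 : ℝ) := by simp
          rw [h3]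
          refine sum_le_sum fun y hy => ?_
          split_ifs
          · exact ih' _ (by rw [← hn']; exact card_erase_lt_of_mem hy) _ _ rfl
          · exact zero_le_one
    by_cases h : att u S
    · rw [tt_of (att u) _ h, sub_zero]
      exact h1 R S
    · have h3 := tt_of_not (att u) (R.erase u) h
      rw [card_erase_of_mem hu, Nat.cast_sub (card_pos.2 ⟨u, hu⟩)] at h3
      simp only [Nat.cast_one, sub_add_cancel] at h3
      refine le_of_mul_le_mul_left ?_ h2
      rw [ee_eq att S hne, mul_sub, h3, mul_one, ← add_sum_erase R _ hu, if_neg h, zero_add]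
      have h4 : (R.card : ℝ) = 1 + ∑ y ∈ R.erase u, (1 : ℝ) := by
        rw [sum_const, card_erase_of_mem hu, nsmul_eq_mul, mul_one,
          Nat.cast_sub (card_pos.2 ⟨u, hu⟩)]
        simp
      have h5 : ∑ y ∈ R.erase u, (if att y S then ee att (R.erase y) (insert y S) else 0) ≤
          ∑ y ∈ R.erase u, (1 - tt (att u) ((R.erase u).erase y) (insert y S)) := by
        refine sum_le_sum fun y hy => ?_
        have hy' := mem_erase.1 hy
        have h6 := ih (R.erase y).card (by rw [← hn]; exact card_erase_lt_of_mem hy'.2)
          (R.erase y) (insert y S) (mem_erase.2 ⟨hy'.1.symm, hu⟩) rfl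
        rw [erase_right_comm] at h6
        split_ifs
        · exact h6
        · exact le_trans (ee_nonneg _ _ _) h6
      rw [sum_sub_distrib] at h5
      linarith

/-- the first failure inequality, at an arbitrary stage -/
theorem FF_main (att : V → Finset V → Prop) (hatt : ∀ v S T, S ⊆ T → att v S → att v T)
    (R S : Finset V) :
    ee att R S * (∑ u ∈ R, (tt (att u) (R.erase u) S + tt (att u) (R.erase u) S ^ 2)) ≤
      1 - ee att R S := by
  classical
  induction hn : R.card using Nat.strong_induction_on generalizing R S with
  | _ n ih =>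
    rcases R.eq_empty_or_nonempty with rfl | hne
    · simp [ee_empty]
    have h2 : (0 : ℝ) < R.card := by exact_mod_cast hne.card_pos
    refine le_of_mul_le_mul_left ?_ h2
    -- abbreviations
    set e' : V → ℝ := fun y => if att y S then ee att (R.erase y) (insert y S) else 0 with he'
    have he : (R.card : ℝ) * ee att R S = ∑ y ∈ R, e' y := ee_eq att S hne
    have he0 : ∀ y ∈ R, 0 ≤ e' y := by
      intro y _
      rw [he']
      simp only
      split_ifs
      · exact ee_nonneg _ _ _
      · exact le_rfl
    -- the induction hypothesis
    have hih : ∀ y ∈ R, e' y * (∑ u ∈ R.erase y,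
        (tt (att u) ((R.erase y).erase u) (insert y S) +
          tt (att u) ((R.erase y).erase u) (insert y S) ^ 2)) ≤
        (if att y S then 1 else 0) - e' y := by
      intro y hy
      rw [he']
      simp only
      split_ifs with h
      · exact ih _ (by rw [← hn]; exact card_erase_lt_of_mem hy) _ _ rfl
      · simp
    -- one vertex
    have hone : ∀ u ∈ R, (∑ y ∈ R, e' y) * (tt (att u) (R.erase u) S +
        tt (att u) (R.erase u) S ^ 2) ≤ (if att u S then 0 else 1) +
        ∑ y ∈ R.erase u, e' y * (tt (att u) ((R.erase y).erase u) (insert y S) +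
          tt (att u) ((R.erase y).erase u) (insert y S) ^ 2) := by
      intro u hu
      by_cases h : att u S
      · rw [if_pos h, zero_add, tt_of (att u) _ h]
        have h3 : (0 : ℝ) ≤ ∑ y ∈ R.erase u, e' y *
            (tt (att u) ((R.erase y).erase u) (insert y S) +
            tt (att u) ((R.erase y).erase u) (insert y S) ^ 2) := by
          refine sum_nonneg fun y hy => mul_nonneg (he0 y (mem_of_mem_erase hy)) ?_
          have := tt_nonneg (att u) ((R.erase y).erase u) (insert y S)
          positivity
        simpa using h3
      · rw [if_neg h]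
        set a := tt (att u) (R.erase u) S with ha
        have ha0 : 0 ≤ a := tt_nonneg _ _ _
        have h3 := tt_of_not (att u) (R.erase u) h
        rw [card_erase_of_mem hu, Nat.cast_sub (card_pos.2 ⟨u, hu⟩)] at h3
        simp only [Nat.cast_one, sub_add_cancel] at h3
        rw [← ha] at h3
        have heu : e' u = 0 := by
          rw [he']
          simp only
          rw [if_neg h]
        rw [← add_sum_erase R _ hu, heu, zero_add, sum_mul]
        have h4 : ∀ y ∈ R.erase u, e' y * (a + a ^ 2) -
            e' y * (tt (att u) ((R.erase y).erase u) (insert y S) +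
            tt (att u) ((R.erase y).erase u) (insert y S) ^ 2) ≤
            (a - tt (att u) ((R.erase u).erase y) (insert y S)) * (1 + a) := by
          intro y hy
          have hy' := mem_erase.1 hy
          have h5 : (R.erase y).erase u = (R.erase u).erase y := erase_right_comm
          rw [h5]
          set a' := tt (att u) ((R.erase u).erase y) (insert y S) with ha'
          have ha'0 : 0 ≤ a' := tt_nonneg _ _ _
          have h6 : a' ≤ a := tt_shift (hatt u) (R.erase u) S (mem_erase.2 ⟨hy'.1, hy'.2⟩)
          have h7 : e' y ≤ 1 - a' := by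
            rw [he']
            simp only
            have h8 := FF_ee_le att (R.erase y) (insert y S) (mem_erase.2 ⟨hy'.1.symm, hu⟩)
            rw [h5, ← ha'] at h8
            split_ifs
            · exact h8
            · exact le_trans (ee_nonneg _ _ _) h8
          have h9 := he0 y hy'.2
          have h10 : e' y * (a + a ^ 2) - e' y * (a' + a' ^ 2) =
              e' y * ((a - a') * (1 + a + a')) := by ring
          rw [h10]
          have h11 : (0 : ℝ) ≤ (a - a') * (1 + a + a') := by
            apply mul_nonneg <;> linarith
          have h12 : e' y * ((a - a') * (1 + a + a')) ≤ (1 - a') * ((a - a') * (1 + a + a')) :=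
            mul_le_mul_of_nonneg_right h7 h11
          refine h12.trans ?_
          have h13 : (1 - a') * ((a - a') * (1 + a + a')) =
              (a - a') * (1 + a) - (a - a') * (a' * (a + a')) := by ring
          rw [h13]
          have h14 : 0 ≤ (a - a') * (a' * (a + a')) := by
            apply mul_nonneg (by linarith)
            positivity
          linarith
        have h5 := sum_le_sum h4
        have h8 : ∑ y ∈ R.erase u, (a - tt (att u) ((R.erase u).erase y) (insert y S)) * (1 + a) =
            (((R.card : ℝ) - 1) * a - ∑ y ∈ R.erase u,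
            tt (att u) ((R.erase u).erase y) (insert y S)) * (1 + a) := by
          rw [← sum_mul, sum_sub_distrib, sum_const, card_erase_of_mem hu,
            nsmul_eq_mul, Nat.cast_sub (card_pos.2 ⟨u, hu⟩), Nat.cast_one]
        rw [sum_sub_distrib, h8] at h5
        have h6 : (((R.card : ℝ) - 1) * a - ∑ y ∈ R.erase u,
            tt (att u) ((R.erase u).erase y) (insert y S)) * (1 + a) = (1 - a) * (1 + a) := by
          have : ((R.card : ℝ) - 1) * a - ∑ y ∈ R.erase u,
            tt (att u) ((R.erase u).erase y) (insert y S) = 1 - a := by linarith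
          rw [this]
        rw [h6] at h5
        have h7 : (1 - a) * (1 + a) ≤ 1 := by nlinarith
        linarith
    -- summation
    have hsum : (∑ y ∈ R, e' y) * ∑ u ∈ R, (tt (att u) (R.erase u) S +
        tt (att u) (R.erase u) S ^ 2) ≤ (∑ u ∈ R, (if att u S then (0 : ℝ) else 1)) +
        ∑ y ∈ R, ((if att y S then (1 : ℝ) else 0) - e' y) := by
      rw [mul_sum]
      refine (sum_le_sum hone).trans ?_
      rw [sum_add_distrib]
      have h3 : ∑ u ∈ R, ∑ y ∈ R.erase u, e' y *
          (tt (att u) ((R.erase y).erase u) (insert y S) +
          tt (att u) ((R.erase y).erase u) (insert y S) ^ 2) =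
          ∑ y ∈ R, e' y * ∑ u ∈ R.erase y,
          (tt (att u) ((R.erase y).erase u) (insert y S) +
          tt (att u) ((R.erase y).erase u) (insert y S) ^ 2) := by
        simp only [mul_sum]
        rw [sum_comm' (s := R) (t := fun u => R.erase u) (t' := R) (s' := fun y => R.erase y)]
        intro x y
        simp only [mem_erase]
        constructor
        · rintro ⟨h1, h2, h3⟩
          exact ⟨⟨fun e => h2 e.symm, h1⟩, h3⟩
        · rintro ⟨⟨h1, h2⟩, h3⟩
          exact ⟨h2, fun e => h1 e.symm, h3⟩
      rw [h3]
      have := sum_le_sum hih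
      linarith
    have h3 : (∑ u ∈ R, (if att u S then (0 : ℝ) else 1)) +
        ∑ y ∈ R, ((if att y S then (1 : ℝ) else 0) - e' y) = R.card - ∑ y ∈ R, e' y := by
      rw [sum_sub_distrib, ← add_sub_assoc, ← sum_add_distrib]
      congr 1
      have : ∀ u ∈ R, (if att u S then (0 : ℝ) else 1) + (if att u S then (1 : ℝ) else 0) = 1 := by
        intro u _
        split_ifs <;> norm_num
      rw [sum_congr rfl this, sum_const, nsmul_eq_mul, mul_one]
    rw [h3] at hsum
    rw [← mul_assoc, he, mul_sub, he, mul_one]
    exact hsum

/-- module FF: the first failure inequality -/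
theorem ee_ff (att : V → Finset V → Prop) (hatt : ∀ v S T, S ⊆ T → att v S → att v T)
    (Y : Finset V) :
    ee att Y ∅ * (∑ u ∈ Y, tt (att u) (Y.erase u) ∅ + ∑ u ∈ Y, tt (att u) (Y.erase u) ∅ ^ 2) ≤
      1 - ee att Y ∅ := by
  rw [← sum_add_distrib]
  exact FF_main att hatt Y ∅

end Pool.Agent.MP5f1228.Ex
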