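import Mathlib
import Pool.Agent.Lib.MP_5f1228_co.Asy.GSys
import Pool.Agent.Lib.MP_5f1228_co.Ex.ExS

/-!
# MP_5f1228_co, exact threshold: some thin point is covered by all fat points
-/

set_option autoImplicit false

open scoped Classical
open Finset

namespace Pool.Agent.MP5f1228.Ex

open Asy
open Pool.Agent.MP5f1228B (Con)

section Graph

variable {V : Type} [Fintype V] [DecidableEq V] {r : ℕ} {G : SimpleGraph V}
  {c : Sym2 V → Fin r} {b t : ℕ} {D0 R : Finset V} {i : Fin r} {u v w : V} {M lam a K : ℕ}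

/-- the vertices with the word of `x` -/
noncomputable def GraphU_Pb (G : SimpleGraph V) (c : Sym2 V → Fin r) (b t : ℕ) (D0 : Finset V)
    (x : V) : Finset V := univ.filter (fun v => v ∉ D0 ∧ ∀ i, Cl G c b t D0 i x v)

/-- the removed vertices not covered by `x` -/
noncomputable def GraphU_Dm (G : SimpleGraph V) (c : Sym2 V → Fin r) (b t : ℕ) (D0 : Finset V)
    (K : ℕ) (x : V) : Finset V := D0.filter (fun z => ¬ ∃ i, AG G c b t D0 K i x z)

theorem GraphU_mem_Pb {x : V} : v ∈ GraphU_Pb G c b t D0 x ↔ v ∉ D0 ∧ ∀ i, Cl G c b t D0 i x v := by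
  unfold GraphU_Pb
  rw [mem_filter]
  exact and_iff_right (mem_univ _)

theorem GraphU_mem_Dm {x : V} : v ∈ GraphU_Dm G c b t D0 K x ↔
    v ∈ D0 ∧ ¬ ∃ i, AG G c b t D0 K i x v := by
  unfold GraphU_Dm
  rw [mem_filter]

/-- every vertex outside `D0` has the word of a representative -/
theorem GraphU_word (hR : ∀ v ∈ R, v ∉ D0)
    (hRep : ∀ v, v ∉ D0 → ∃ ρ ∈ R, We G c b t D0 ρ v) {D : ℕ}
    (T : Finset {v // Typ G c b t D0 R a K v}) (τ : {v // Typ G c b t D0 R a K v} →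
      {v // Typ G c b t D0 R a K v}) (hE : ExS (gsys G c b t D0 R hR a K) D T τ) (v : V)
    (hv : v ∉ D0) : ∃ x ∈ T, v ∈ GraphU_Pb G c b t D0 x.1 := by
  obtain ⟨ρ, hρ, hW⟩ := hRep v hv
  have hact : ∀ i (x : {v // Typ G c b t D0 R a K v}), x.1 ∈ ActG G c b i := fun i x => hE.act i x
  have hcl : ∀ i (x : {v // Typ G c b t D0 R a K v}), AG G c b t D0 K i x.1 ρ →
      Cl G c b t D0 i x.1 ρ := by
    intro i x h
    rcases h with ⟨_, ⟨_, h⟩ | ⟨h, _⟩⟩ | ⟨h, _⟩
    · exact h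
    · exact absurd h (hR ρ hρ)
    · exact absurd (hact i x) h
  obtain ⟨x, hx, hxz⟩ := hE.thin ⟨ρ, mem_union_right _ hρ⟩ (by
    intro i x x' h h'
    exact GSys_eq_of_cl ((hcl i x h).trans (hcl i x' h').symm))
  refine ⟨x, hx, GraphU_mem_Pb.2 ⟨hv, fun i => ?_⟩⟩
  have h1 : Cl G c b t D0 i x.1 ρ := hcl i x (hxz i)
  exact h1.trans ((hW i).2 (h1.act_iff.1 (hact i x)))

/-- module GRAPHU (file Ex/GraphU.lean) -/
theorem exists_univ_thin [DecidableRel G.Adj] (hR : ∀ v ∈ R, v ∉ D0)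
    (hRep : ∀ v, v ∉ D0 → ∃ ρ ∈ R, We G c b t D0 ρ v) {e D : ℕ}
    (hd : ∀ v, (univ.filter (fun w => ¬ G.Adj v w)).card ≤ e)
    (he : 2 ^ r * e < Fintype.card V + 2 ^ r)
    (T : Finset {v // Typ G c b t D0 R a K v}) (τ : {v // Typ G c b t D0 R a K v} →
      {v // Typ G c b t D0 R a K v}) (hE : ExS (gsys G c b t D0 R hR a K) D T τ)
    (hD : 2 * (D0.card * (r * K)) ≤ D) :
    ∃ z0, ∀ x, (gsys G c b t D0 R hR a K).Cov x z0 := by
  by_contra hcon
  push Not at hcon
  have hact : ∀ i (x : {v // Typ G c b t D0 R a K v}), x.1 ∈ ActG G c b i := fun i x => hE.act i x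
  -- the sets cover everything
  have hcover : (univ : Finset V) ⊆ T.biUnion (fun x => GraphU_Pb G c b t D0 x.1 ∪
      GraphU_Dm G c b t D0 K (τ x).1) := by
    intro v _
    rw [mem_biUnion]
    by_cases hv : v ∈ D0
    · obtain ⟨x, hx⟩ := hcon ⟨v, mem_union_left _ hv⟩
      obtain ⟨y, hy, hyx⟩ := hE.typ x
      have h1 : ¬ (gsys G c b t D0 R hR a K).Cov y ⟨v, mem_union_left _ hv⟩ :=
        fun h => hx ((hE.cov_iff hyx).1 h)
      refine ⟨τ y, hE.memT y hy, mem_union_right _ ?_⟩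
      rw [hE.tautau hy, GraphU_mem_Dm]
      exact ⟨hv, h1⟩
    · obtain ⟨x, hx, hxv⟩ := GraphU_word hR hRep T τ hE v hv
      exact ⟨x, hx, mem_union_left _ hxv⟩
  have hsum : Fintype.card V ≤ ∑ x ∈ T, ((GraphU_Pb G c b t D0 x.1).card +
      (GraphU_Dm G c b t D0 K (τ x).1).card) := by
    rw [← card_univ]
    refine (card_le_card hcover).trans (card_biUnion_le.trans (sum_le_sum fun x _ => ?_))
    exact card_union_le _ _
  obtain ⟨x, hx, hxe⟩ : ∃ x ∈ T, e ≤ (GraphU_Pb G c b t D0 x.1).card +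
      (GraphU_Dm G c b t D0 K (τ x).1).card := by
    by_contra hno
    push Not at hno
    have h1 : ∑ x ∈ T, ((GraphU_Pb G c b t D0 x.1).card +
        (GraphU_Dm G c b t D0 K (τ x).1).card + 1) ≤ T.card * e := by
      rw [← smul_eq_mul, ← sum_const]
      exact sum_le_sum fun x hx => hno x hx
    rw [sum_add_distrib, sum_const, hE.card, smul_eq_mul, mul_one] at h1
    omega
  -- there is a colour
  have hr : Nonempty (Fin r) := ⟨c s(x.1, x.1)⟩
  have hdis : ∀ v ∈ GraphU_Pb G c b t D0 (τ x).1, v ∉ GraphU_Pb G c b t D0 x.1 := by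
    intro v hv hv'
    obtain ⟨i⟩ := hr
    exact hE.perp x hx i (GSys_eq_of_cl (((GraphU_mem_Pb.1 hv').2 i).trans
      ((GraphU_mem_Pb.1 hv).2 i).symm))
  -- no edges between the two sets
  have hnoedge : ∀ u ∈ GraphU_Pb G c b t D0 x.1, ∀ v ∈ GraphU_Pb G c b t D0 (τ x).1,
      ¬ G.Adj v u := by
    intro u hu v hv hadj
    rw [GraphU_mem_Pb] at hu hv
    set i := c s(v, u) with hi
    have hnb : u ∈ Nb G c i v := Cls_mem_Nb.2 ⟨hadj, rfl⟩
    have hua : u ∈ ActG G c b i := (hu.2 i).act_iff.1 (hact i x)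
    have hva : v ∈ ActG G c b i := (hv.2 i).act_iff.1 (hact i (τ x))
    have h1 : Cl G c b t D0 i v u := Cl.of_adj ⟨hva, hv.1⟩ ⟨hua, hu.1⟩ (lk_of_mono hva hua hnb)
    exact hE.perp x hx i (GSys_eq_of_cl ((hu.2 i).trans (((hv.2 i).trans h1).symm)))
  -- every vertex of the second set has a neighbour among the removed vertices
  have hnb : ∀ v ∈ GraphU_Pb G c b t D0 (τ x).1, ∃ z ∈ GraphU_Dm G c b t D0 K (τ x).1,
      G.Adj v z := by
    intro v hv
    by_contra hno
    push Not at hno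
    have hvD : v ∉ D0 := (GraphU_mem_Pb.1 hv).1
    have h1 : insert v (GraphU_Pb G c b t D0 x.1 ∪ GraphU_Dm G c b t D0 K (τ x).1) ⊆
        univ.filter (fun w => ¬ G.Adj v w) := by
      intro w hw
      rw [mem_filter]
      refine ⟨mem_univ _, ?_⟩
      rw [mem_insert, mem_union] at hw
      rcases hw with rfl | hw | hw
      · exact G.irrefl
      · exact hnoedge w hw v hv
      · exact hno w hw
    have h2 : v ∉ GraphU_Pb G c b t D0 x.1 ∪ GraphU_Dm G c b t D0 K (τ x).1 := by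
      rw [mem_union, not_or]
      exact ⟨hdis v hv, fun h => hvD (GraphU_mem_Dm.1 h).1⟩
    have h3 : Disjoint (GraphU_Pb G c b t D0 x.1) (GraphU_Dm G c b t D0 K (τ x).1) := by
      rw [disjoint_left]
      intro w hw hw'
      exact (GraphU_mem_Pb.1 hw).1 (GraphU_mem_Dm.1 hw').1
    have h4 := (card_le_card h1).trans (hd v)
    rw [card_insert_of_notMem h2, card_union_of_disjoint h3] at h4
    omega
  -- the removed vertices have few neighbours
  have hfew : ∀ z ∈ GraphU_Dm G c b t D0 K (τ x).1,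
      ((GraphU_Pb G c b t D0 (τ x).1).filter (fun v => G.Adj v z)).card ≤ r * K := by
    intro z hz
    rw [GraphU_mem_Dm] at hz
    have h1 : (GraphU_Pb G c b t D0 (τ x).1).filter (fun v => G.Adj v z) ⊆
        (univ : Finset (Fin r)).biUnion (fun i => univ.filter (fun u => u ∈ Nb G c i z ∧
          Cl G c b t D0 i (τ x).1 u)) := by
      intro v hv
      rw [mem_filter] at hv
      rw [mem_biUnion]
      refine ⟨c s(z, v), mem_univ _, ?_⟩
      rw [mem_filter]
      exact ⟨mem_univ _, Cls_mem_Nb.2 ⟨hv.2.symm, rfl⟩, (GraphU_mem_Pb.1 hv.1).2 _⟩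
    refine (card_le_card h1).trans ((card_biUnion_le_card_mul _ _ K fun i _ => ?_).trans
      (le_of_eq ?_))
    · by_contra hK
      push Not at hK
      exact hz.2 ⟨i, Or.inl ⟨hact i (τ x), Or.inr ⟨hz.1, hK.le⟩⟩⟩
    · rw [card_univ, Fintype.card_fin]
  have hPb : (GraphU_Pb G c b t D0 (τ x).1).card ≤ D0.card * (r * K) := by
    have h1 : GraphU_Pb G c b t D0 (τ x).1 ⊆ (GraphU_Dm G c b t D0 K (τ x).1).biUnion
        (fun z => (GraphU_Pb G c b t D0 (τ x).1).filter (fun v => G.Adj v z)) := by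
      intro v hv
      obtain ⟨z, hz, hvz⟩ := hnb v hv
      rw [mem_biUnion]
      exact ⟨z, hz, mem_filter.2 ⟨hv, hvz⟩⟩
    refine (card_le_card h1).trans ((card_biUnion_le_card_mul _ _ (r * K) hfew).trans ?_)
    refine Nat.mul_le_mul_right _ (card_le_card ?_)
    intro z hz
    exact (GraphU_mem_Dm.1 hz).1
  have h1 := hE.big (τ x) (hE.memT x hx)
  have h2 : D < 2 * (GraphU_Pb G c b t D0 (τ x).1).card := by
    refine h1.trans_le (Nat.mul_le_mul_left 2 ?_)
    rw [← card_image_of_injective _ Subtype.val_injective]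
    refine card_le_card fun y hy => ?_
    obtain ⟨y', hy', rfl⟩ := mem_image.1 hy
    exact GraphU_mem_Pb.2 ⟨y'.2.notD, fun i => GSys_cl_of_eq ((mem_filter.1 hy').2 i)⟩
  omega

end Graph

end Pool.Agent.MP5f1228.Ex
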