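import Mathlib
import Pool.Agent.Lib.MP_5f1228_co.RO
import Pool.Agent.Lib.MP_5f1228_co.Ex.Defs
import Pool.Agent.Lib.MP_5f1228_co.Ex.FF
import Pool.Agent.Lib.MP_5f1228_co.Ex.Block

/-!
# MP_5f1228_co, exact threshold: the random order inequality with a constant slack (module RO2)
-/

set_option autoImplicit false

open Finset

namespace Pool.Agent.MP5f1228.Ex

open RO

/-- module RO2: if `Y` is not good then in a random order of `Y` all points are attached at their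
arrival with probability at most `6 r / (12 r + 1)` -/
theorem ee_le2 {V : Type*} [DecidableEq V] {r : ℕ} (hr : 1 ≤ r) {g : Fin r → Finset V → Prop}
    (hg0 : ∀ i, g i ∅) (hgU : ∀ i P P', g i P → g i P' → g i (P ∪ P')) {Y : Finset V}
    (hY : ¬ Gd g Y) : ee (Atr g) Y ∅ ≤ 6 * r / (12 * r + 1) := by
  have hr1 : (1 : ℝ) ≤ r := by exact_mod_cast hr
  have h1 := one_le_rho (G := Gd g) (Gd.empty hg0)
    (fun S T hS hT hST => Gd.union hgU hS hT hST) hY
  have h2 := ee_ff (Atr g) (fun _ _ _ => Atr.mono) Y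
  have h3 := block hr hg0 hgU hY
  set ρ := ∑ v ∈ Y, tt (Atr g v) (Y.erase v) ∅ with hρ
  set q := ∑ v ∈ Y, tt (Atr g v) (Y.erase v) ∅ ^ 2 with hq
  have h4 : 1 ≤ ρ := by
    refine h1.trans ?_
    unfold rho
    rw [hρ]
    exact sum_le_sum fun v _ => tt_anti (fun S hS => Atr.att hg0 hS) _ _
  have hq0 : 0 ≤ q := by
    rw [hq]
    exact sum_nonneg fun v _ => sq_nonneg _
  have h5 : 1 + 1 / (6 * (r : ℝ)) ≤ ρ + q := by
    by_contra h
    push Not at h
    set c := 1 / (6 * (r : ℝ)) with hc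
    have hc1 : c * (6 * r) = 1 := by
      rw [hc]
      field_simp
    have h6 : q < c := by linarith
    have h7 : ρ * ((r : ℝ) - 2 / 3) ≤ (1 + c - q) * ((r : ℝ) - 2 / 3) :=
      mul_le_mul_of_nonneg_right (by linarith) (by linarith)
    have h8 : (r : ℝ) ≤ (1 + c - q) * ((r : ℝ) - 2 / 3) + 4 * r * q := by linarith
    have h9 : q * (3 * r + 2 / 3) < c * (3 * r + 2 / 3) :=
      mul_lt_mul_of_pos_right h6 (by linarith)
    nlinarith
  have he0 := ee_nonneg (Atr g) Y ∅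
  rw [le_div_iff₀ (by positivity)]
  have h6 : ee (Atr g) Y ∅ * (1 + 1 / (6 * (r : ℝ))) ≤ 1 - ee (Atr g) Y ∅ :=
    (mul_le_mul_of_nonneg_left h5 he0).trans h2
  have h7 : (6 * (r : ℝ)) * (ee (Atr g) Y ∅ * (1 + 1 / (6 * (r : ℝ)))) ≤
      (6 * (r : ℝ)) * (1 - ee (Atr g) Y ∅) := mul_le_mul_of_nonneg_left h6 (by positivity)
  have h8 : (6 * (r : ℝ)) * (ee (Atr g) Y ∅ * (1 + 1 / (6 * (r : ℝ)))) =
      ee (Atr g) Y ∅ * (6 * r + 1) := by
    field_simp
  rw [h8] at h7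
  linarith

end Pool.Agent.MP5f1228.Ex
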