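import Mathlib
import Pool.Agent.Lib.MP_5f1228_co.Asy.SysMain
import Pool.Agent.Lib.MP_5f1228_co.Ex.Defs
import Pool.Agent.Lib.MP_5f1228_co.Ex.RO2
import Pool.Agent.Lib.MP_5f1228_co.Ex.Cert2
import Pool.Agent.Lib.MP_5f1228_co.Ex.Att2

/-!
# MP_5f1228_co, exact threshold: systems with a universal point have slack (module EX1)
-/

set_option autoImplicit false

open scoped Classical
open Finset

namespace Pool.Agent.MP5f1228.Ex

open Asy

/-- the certificate for a family `C` of bad universal points -/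
theorem ex_cert {r : ℕ} (hr : 1 ≤ r) {X Z L : Type} [Finite X] [Fintype Z] (S : Sys r X Z L)
    (T : Finset X) (w : X → X) (hT1 : ∀ a ∈ T, ∀ i, S.κ i a ≠ S.κ i (w a))
    (hT2 : ∀ a ∈ T, ∀ a' ∈ T, a ≠ a' → ∃ i, S.κ i a' = S.κ i (w a)) (C : X → Prop)
    (hC : ∀ y, C y → S.Univ y) (hno : ∀ y, C y → ¬ S.Good y univ) :
    ∃ (m : ℕ) (W : Z → ℝ), T.card + 2 * m ≤ 2 ^ r ∧ (∀ z, 0 ≤ W z) ∧
      ∑ z, W z ≤ (2 - 1 / (6 * r + 1)) * m ∧
      ∀ y, C y → 1 ≤ ∑ z ∈ univ.filter (fun z => ¬ S.Cov y z), W z := by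
  -- separating sequences
  set Q : ℕ → Prop := fun k => ∃ (y : Fin k → {y // C y}) (z : Fin k → Z)
      (P : Fin k → Finset Z), (∀ j l, j < l → S.Cov (y l).1 (z j)) ∧
      (∀ j l, j < l → insert (z j) (P j) ⊆ P l) ∧
      (∀ l, ¬ Atr (gS S (y l).1) (z l) (P l)) with hQ
  have hQT : ∀ k, Q k → T.card + 2 * k ≤ 2 ^ r := by
    intro k hk
    obtain ⟨y, z, P, ha, hb, hc⟩ := hk
    refine mi S T w hT1 hT2 k (fun l => (y l).1) z P (fun l => hC _ (y l).2) ha hb ?_
    intro l i h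
    exact hc l (atr_of_rch S _ i _ _ h)
  have hQ0 : Q 0 := ⟨fun l => l.elim0, fun l => l.elim0, fun l => l.elim0,
    fun j => j.elim0, fun j => j.elim0, fun j => j.elim0⟩
  set m := Nat.findGreatest Q (2 ^ r) with hm
  have hQm : Q m := Nat.findGreatest_spec (Nat.zero_le _) hQ0
  have hmax : ∀ k, Q k → k ≤ m := by
    intro k hk
    refine Nat.le_findGreatest ?_ hk
    have := hQT k hk
    omega
  have hr1 : (1 : ℝ) ≤ r := by exact_mod_cast hr
  obtain ⟨W, hW0, hW1, hW2⟩ := cert2 (C := {y // C y}) (fun y z => S.Cov y.1 z)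
    (fun y => Atr (gS S y.1)) (fun y z S' h => atr_of_cov S _ _ _ h) m
    (fun k y z P ha hb hc => hmax k ⟨y, z, P, ha, hb, hc⟩) ((6 * r + 1) / (12 * r + 1))
    (by positivity)
  refine ⟨m, W, hQT m hQm, hW0, hW1.trans (le_of_eq ?_), ?_⟩
  · have h1 : (6 * (r : ℝ) + 1) ≠ 0 := by positivity
    have h2 : (12 * (r : ℝ) + 1) ≠ 0 := by positivity
    field_simp
    ring
  · intro y hy
    refine hW2 ⟨y, hy⟩ ?_
    refine (ee_le2 hr (gS_empty S y) (gS_union S y) (hno y hy)).trans (le_of_eq ?_)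
    have h2 : (12 * (r : ℝ) + 1) ≠ 0 := by positivity
    field_simp
    ring

/-- module EX1 -/
theorem ex_main1 {r : ℕ} (hr : 1 ≤ r) {X Z L : Type} [Fintype X] [Fintype Z] (S : Sys r X Z L)
    (D : ℕ) (h1 : ∀ x, (univ.filter (fun x' => ∀ i, S.κ i x ≠ S.κ i x')).card ≤ D)
    (h2 : ∀ z, (univ.filter (fun x => ¬ S.Cov x z)).card ≤ D)
    (hno : ∀ y, ¬ S.Good y univ) :
    (∀ y, ¬ S.Univ y) ∨ (6 * r + 1) * Fintype.card X + D ≤ (6 * r + 1) * (2 ^ r * D) := by
  by_cases hU0 : ∀ y, ¬ S.Univ y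
  · exact Or.inl hU0
  right
  push Not at hU0
  obtain ⟨y0, hy0⟩ := hU0
  obtain ⟨T, w, hT1, hT2, hT3⟩ := SysMain_min S
  obtain ⟨m, W, hTm, hW0, hW1, hW2⟩ := ex_cert hr S T w hT1 hT2 (fun y => S.Univ y)
    (fun y hy => hy) (fun y _ => hno y)
  have hr1 : (1 : ℝ) ≤ r := by exact_mod_cast hr
  have hκ : (0 : ℝ) < 6 * r + 1 := by positivity
  -- `m` is positive
  have hm1 : 1 ≤ m := by
    by_contra hm
    have hm0 : m = 0 := by omega
    rw [hm0, Nat.cast_zero, mul_zero] at hW1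
    have h3 := hW2 y0 hy0
    have h4 : ∑ z ∈ univ.filter (fun z => ¬ S.Cov y0 z), W z ≤ ∑ z, W z :=
      sum_le_sum_of_subset_of_nonneg (filter_subset _ _) fun z _ _ => hW0 z
    linarith
  have hm1' : (1 : ℝ) ≤ m := by exact_mod_cast hm1
  -- universal points
  have hU : ((univ.filter (fun x => S.Univ x)).card : ℝ) ≤ (2 - 1 / (6 * r + 1)) * m * D := by
    have e2 : ((univ.filter (fun x => S.Univ x)).card : ℝ) ≤
        ∑ y ∈ univ.filter (fun x => S.Univ x), ∑ z ∈ univ.filter (fun z => ¬ S.Cov y z), W z := by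
      have := sum_le_sum fun y (hy : y ∈ univ.filter (fun x => S.Univ x)) =>
        hW2 y (mem_filter.mp hy).2
      simpa using this
    refine e2.trans ?_
    have e3 : ∑ y ∈ univ.filter (fun x => S.Univ x), ∑ z ∈ univ.filter (fun z => ¬ S.Cov y z), W z
        = ∑ z, ∑ y ∈ univ.filter (fun x => S.Univ x), if ¬ S.Cov y z then W z else 0 := by
      rw [sum_comm]
      refine sum_congr rfl fun y _ => ?_
      rw [sum_filter]
    rw [e3]
    have e4 : ∀ z ∈ (univ : Finset Z), (∑ y ∈ univ.filter (fun x => S.Univ x),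
        if ¬ S.Cov y z then W z else 0) ≤ W z * D := by
      intro z _
      rw [← sum_filter, sum_const, nsmul_eq_mul, mul_comm]
      refine mul_le_mul_of_nonneg_left ?_ (hW0 z)
      have e5 : ((univ.filter (fun x => S.Univ x)).filter (fun x => ¬ S.Cov x z)).card ≤ D := by
        refine (card_le_card ?_).trans (h2 z)
        intro x hx
        rw [mem_filter] at hx ⊢
        exact ⟨mem_univ _, hx.2⟩
      exact_mod_cast e5
    refine (sum_le_sum e4).trans ?_
    rw [← sum_mul]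
    exact mul_le_mul_of_nonneg_right hW1 (Nat.cast_nonneg D)
  -- non-universal points
  have hN : (univ.filter (fun x => ¬ S.Univ x)).card ≤ T.card * D := by
    have e1 : univ.filter (fun x => ¬ S.Univ x) ⊆
        T.biUnion (fun a => univ.filter (fun x' => ∀ i, S.κ i a ≠ S.κ i x')) := by
      intro b hb
      obtain ⟨a, ha, hab⟩ := hT3 b (mem_filter.mp hb).2
      rw [mem_biUnion]
      exact ⟨a, ha, mem_filter.mpr ⟨mem_univ _, hab⟩⟩
    refine (card_le_card e1).trans (card_biUnion_le.trans ?_)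
    rw [← smul_eq_mul, ← sum_const]
    exact sum_le_sum fun a _ => h1 a
  have hX : (univ.filter (fun x => S.Univ x)).card + (univ.filter (fun x => ¬ S.Univ x)).card
      = Fintype.card X := by
    rw [← card_univ]
    exact card_filter_add_card_filter_not (fun x => S.Univ x)
  have hN' : ((univ.filter (fun x => ¬ S.Univ x)).card : ℝ) ≤ T.card * D := by exact_mod_cast hN
  have hX' : ((univ.filter (fun x => S.Univ x)).card : ℝ) +
      ((univ.filter (fun x => ¬ S.Univ x)).card : ℝ) = Fintype.card X := by exact_mod_cast hX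
  have hTm' : (T.card : ℝ) + 2 * m ≤ 2 ^ r := by exact_mod_cast hTm
  have hD0 : (0 : ℝ) ≤ D := Nat.cast_nonneg D
  have h3 : (Fintype.card X : ℝ) ≤ (T.card + 2 * m) * D - 1 / (6 * r + 1) * (m * D) := by
    nlinarith
  have h4 : ((T.card : ℝ) + 2 * m) * D ≤ 2 ^ r * D := mul_le_mul_of_nonneg_right hTm' hD0
  have h5 : (6 * (r : ℝ) + 1) * Fintype.card X ≤
      (6 * r + 1) * (2 ^ r * D) - m * D := by
    have h6 : (6 * (r : ℝ) + 1) * Fintype.card X ≤
        (6 * r + 1) * ((T.card + 2 * m) * D - 1 / (6 * r + 1) * (m * D)) :=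
      mul_le_mul_of_nonneg_left h3 hκ.le
    have h7 : (6 * (r : ℝ) + 1) * ((T.card + 2 * m) * D - 1 / (6 * r + 1) * (m * D)) =
        (6 * r + 1) * ((T.card + 2 * m) * D) - m * D := by
      field_simp
    rw [h7] at h6
    have h8 : (6 * (r : ℝ) + 1) * (((T.card : ℝ) + 2 * m) * D) ≤ (6 * r + 1) * (2 ^ r * D) :=
      mul_le_mul_of_nonneg_left h4 hκ.le
    linarith
  have h6 : (D : ℝ) ≤ m * D := by nlinarith
  have h7 : (6 * (r : ℝ) + 1) * Fintype.card X + D ≤ (6 * r + 1) * (2 ^ r * D) := by linarith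
  exact_mod_cast h7

end Pool.Agent.MP5f1228.Ex
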