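import Mathlib
import Pool.Agent.Lib.MP_5f1228_co.Asy.Att
import Pool.Agent.Lib.MP_5f1228_co.Ex.ExS

/-!
# MP_5f1228_co, exact threshold: merging the labels seen by a thin point (module MSYS)
-/

set_option autoImplicit false

open scoped Classical
open Finset

namespace Pool.Agent.MP5f1228.Ex

open Asy
open Pool.Agent.MP5f1228B (Con)

/-- module MSYS (file Ex/MSys.lean): merge the labels of colour `i0` seen by `z0` -/
noncomputable def mrg {r : ℕ} {X Z L : Type} (S : Sys r X Z L) (hact : ∀ i x, S.act i x) (z0 : Z)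
    (i0 : Fin r) : Sys r X {z // z ≠ z0} (Option L) where
  κ i x := if i = i0 ∧ S.A i x z0 then none else some (S.κ i x)
  act _ _ := True
  A i x z := S.A i x z.1 ∨ (i = i0 ∧ S.A i x z0 ∧ ∃ x', S.A i x' z0 ∧ S.A i x' z.1)
  Γ i z z' := S.Γ i z.1 z'.1
  Γ_symm := fun i z z' h => S.Γ_symm i z.1 z'.1 h
  act_congr := fun _ _ _ _ _ => trivial
  A_congr := by
    intro i x x' z _ hκ hA
    by_cases h1 : i = i0 ∧ S.A i x z0
    · rw [if_pos h1] at hκ
      by_cases h2 : i = i0 ∧ S.A i x' z0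
      · right
        refine ⟨h1.1, h2.2, ?_⟩
        rcases hA with hA | ⟨_, _, hA⟩
        · exact ⟨x, h1.2, hA⟩
        · exact hA
      · rw [if_neg h2] at hκ
        exact absurd hκ (by simp)
    · rw [if_neg h1] at hκ
      by_cases h2 : i = i0 ∧ S.A i x' z0
      · rw [if_pos h2] at hκ
        exact absurd hκ (by simp)
      · rw [if_neg h2] at hκ
        have hκ' := Option.some.inj hκ
        left
        rcases hA with hA | ⟨h3, h4, _⟩
        · exact S.A_congr i x x' z.1 (hact i x) hκ' hA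
        · exact absurd ⟨h3, h4⟩ h1
  own := fun _ _ _ h _ => absurd trivial h
  clique := fun _ _ _ _ h _ _ => absurd trivial h

theorem mrg_cov {r : ℕ} {X Z L : Type} (S : Sys r X Z L) (hact : ∀ i x, S.act i x) (z0 : Z)
    (i0 : Fin r) (x : X) (z : {z // z ≠ z0}) (h : S.Cov x z.1) :
    (mrg S hact z0 i0).Cov x z := by
  obtain ⟨i, hi⟩ := h
  exact ⟨i, Or.inl hi⟩

/-- chains of the merged system -/
theorem mrg_rch {r : ℕ} {X Z L : Type} (S : Sys r X Z L) (hact : ∀ i x, S.act i x) (z0 : Z)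
    (i0 i : Fin r) (y : X) (W : Finset {z // z ≠ z0}) (W' : Finset Z)
    (hW : ∀ z ∈ W, z.1 ∈ W') (hz0 : i = i0 → z0 ∈ W') (p : X ⊕ {z // z ≠ z0})
    (h : (mrg S hact z0 i0).Rch i y W p) :
    S.Rch i y W' (Sum.map id Subtype.val p) := by
  induction h with
  | refl => exact Pool.Agent.MP5f1228B.Con.refl _
  | @tail p q hb hc ih =>
    obtain ⟨he, hok⟩ := hc
    rcases p with x | z <;> rcases q with x' | z'
    · -- two fat points
      have hκ : (if i = i0 ∧ S.A i x z0 then none else some (S.κ i x)) =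
        (if i = i0 ∧ S.A i x' z0 then none else some (S.κ i x') : Option L) := he
      by_cases h1 : i = i0 ∧ S.A i x z0
      · rw [if_pos h1] at hκ
        by_cases h2 : i = i0 ∧ S.A i x' z0
        · have h3 : S.Rch i y W' (Sum.inr z0) :=
            Con.tail (w := (Sum.inr z0 : X ⊕ Z)) ih h1.2 (hz0 h1.1)
          exact Con.tail (w := (Sum.inl x' : X ⊕ Z)) h3 h2.2 (hact i x')
        · rw [if_neg h2] at hκ
          exact absurd hκ (by simp)
      · rw [if_neg h1] at hκ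
        by_cases h2 : i = i0 ∧ S.A i x' z0
        · rw [if_pos h2] at hκ
          exact absurd hκ (by simp)
        · rw [if_neg h2] at hκ
          exact Con.tail (w := (Sum.inl x' : X ⊕ Z)) ih (Option.some.inj hκ) (hact i x')
    · -- from a fat point to a thin point
      have hA : S.A i x z'.1 ∨ (i = i0 ∧ S.A i x z0 ∧ ∃ x', S.A i x' z0 ∧ S.A i x' z'.1) := he
      have hz' : z'.1 ∈ W' := hW z' hok
      rcases hA with hA | ⟨h1, h2, x', h3, h4⟩
      · exact Con.tail (w := (Sum.inr z'.1 : X ⊕ Z)) ih hA hz'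
      · have h5 : S.Rch i y W' (Sum.inr z0) :=
          Con.tail (w := (Sum.inr z0 : X ⊕ Z)) ih h2 (hz0 h1)
        have h6 : S.Rch i y W' (Sum.inl x') :=
          Con.tail (w := (Sum.inl x' : X ⊕ Z)) h5 h3 (hact i x')
        exact Con.tail (w := (Sum.inr z'.1 : X ⊕ Z)) h6 h4 hz'
    · -- from a thin point to a fat point
      have hA : S.A i x' z.1 ∨ (i = i0 ∧ S.A i x' z0 ∧ ∃ x, S.A i x z0 ∧ S.A i x z.1) := he
      rcases hA with hA | ⟨h1, h2, x, h3, h4⟩
      · exact Con.tail (w := (Sum.inl x' : X ⊕ Z)) ih hA (hact i x')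
      · have h5 : S.Rch i y W' (Sum.inl x) :=
          Con.tail (w := (Sum.inl x : X ⊕ Z)) ih h4 (hact i x)
        have h6 : S.Rch i y W' (Sum.inr z0) :=
          Con.tail (w := (Sum.inr z0 : X ⊕ Z)) h5 h3 (hz0 h1)
        exact Con.tail (w := (Sum.inl x' : X ⊕ Z)) h6 h2 (hact i x')
    · exact Con.tail (w := (Sum.inr z'.1 : X ⊕ Z)) ih he (hW z' hok)

theorem mrg_good {r : ℕ} {X Z L : Type} [Fintype Z] (S : Sys r X Z L)
    (hact : ∀ i x, S.act i x) (z0 : Z) (i0 : Fin r) (y : X) (hy : S.A i0 y z0)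
    (h : (mrg S hact z0 i0).Good y univ) : S.Good y univ := by
  obtain ⟨W, h1, h2, h3⟩ := h
  obtain ⟨F, hF⟩ : ∃ F : Fin r → Finset Z, ∀ i z, z ∈ F i ↔
      (∃ z' ∈ W i, z'.1 = z) ∨ (i = i0 ∧ z = z0) := by
    refine ⟨fun i => (W i).image Subtype.val ∪ (if i = i0 then {z0} else ∅), fun i z => ?_⟩
    simp only [mem_union, mem_image]
    by_cases hi : i = i0
    · rw [if_pos hi, mem_singleton]
      simp only [hi, true_and]
    · rw [if_neg hi]
      simp only [hi, false_and, notMem_empty]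
  refine ⟨F, ?_, ?_, ?_⟩
  · intro i z hz
    rcases (hF i z).1 hz with ⟨z', hz', rfl⟩ | ⟨hi, hz0⟩
    · refine mrg_rch S hact z0 i0 i y (W i) _ ?_ ?_ (Sum.inr z') (h1 i z' hz')
      · intro z'' hz''
        exact (hF i _).2 (Or.inl ⟨z'', hz'', rfl⟩)
      · intro hi
        exact (hF i _).2 (Or.inr ⟨hi, rfl⟩)
    · subst hz0
      rw [← hi] at hy
      exact Con.single (A := S.Edge i) hy hz
  · intro i j hij
    rw [disjoint_left]
    intro z hz hz'
    rcases (hF i z).1 hz with ⟨u, hu, hu'⟩ | ⟨hi, hz0⟩ <;>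
      rcases (hF j z).1 hz' with ⟨v, hv, hv'⟩ | ⟨hj, hz0'⟩
    · have : v = u := Subtype.ext (hv'.trans hu'.symm)
      subst this
      exact disjoint_left.1 (h2 i j hij) hu hv
    · exact u.2 (hu'.trans hz0')
    · exact v.2 (hv'.trans hz0)
    · exact hij (hi.trans hj.symm)
  · ext z
    simp only [mem_biUnion, mem_univ, true_and, iff_true]
    by_cases hz : z = z0
    · exact ⟨i0, (hF i0 z).2 (Or.inr ⟨rfl, hz⟩)⟩
    · have h4 := mem_univ (⟨z, hz⟩ : {z // z ≠ z0})
      rw [← h3] at h4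
      obtain ⟨i, _, hi⟩ := (@Finset.mem_biUnion _ _ univ W
        (fun a b => Classical.propDecidable (a = b)) ⟨z, hz⟩).1 h4
      exact ⟨i, (hF i z).2 (Or.inl ⟨⟨z, hz⟩, hi, rfl⟩)⟩

end Pool.Agent.MP5f1228.Ex
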