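import Mathlib
import Pool.Agent.Lib.MP_5f1228_co.Asy.Dyn
import Pool.Agent.Lib.MP_5f1228_co.Asy.Gram
import Pool.Agent.Lib.MP_5f1228_co.Ex.ExS

/-!
# MP_5f1228_co, exact threshold: a universal thin point joins two matched letters (module MERGEA)
-/

set_option autoImplicit false

open scoped Classical
open Finset

namespace Pool.Agent.MP5f1228.Ex

open Asy

/-- module MERGEA (file Ex/MergeA.lean) -/
theorem merge_exists {r : ℕ} {X Z L : Type} [Fintype X] (S : Sys r X Z L) (D : ℕ)
    (T : Finset X) (τ : X → X) (hE : ExS S D T τ) (z0 : Z) (hz0 : ∀ x, S.Cov x z0) :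
    ∃ i, ∃ a ∈ T, S.A i a z0 ∧ S.A i (τ a) z0 := by
  by_contra hno
  push Not at hno
  -- merged letters
  set κ' : Fin r → X → Option L := fun i x => if S.A i x z0 then none else some (S.κ i x)
    with hκ'
  have hcode : ∀ i : Fin r, ∃ c : X → ℚ, ∀ p q, c p = c q ↔ κ' i p = κ' i q := by
    intro i
    obtain ⟨c, hc⟩ := dyn_code (F := ℚ) (Setoid.ker (κ' i))
    exact ⟨c, fun p q => hc p q⟩
  choose c hc using hcode
  have hletter : ∀ i : Fin r, ∃ e : ℚ, ∀ x, S.A i x z0 → c i x = e := by
    intro i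
    by_cases h : ∃ x, S.A i x z0
    · obtain ⟨x0, hx0⟩ := h
      refine ⟨c i x0, fun x hx => (hc i x x0).2 ?_⟩
      rw [hκ']
      simp only
      rw [if_pos hx, if_pos hx0]
    · exact ⟨0, fun x hx => absurd ⟨x, hx⟩ h⟩
  choose e he using hletter
  have hA : ∀ i x x', S.κ i x = S.κ i x' → (S.A i x z0 ↔ S.A i x' z0) := fun i x x' h =>
    hE.A_iff h
  have hκeq : ∀ i x x', S.κ i x = S.κ i x' → c i x = c i x' := by
    intro i x x' h
    rw [hc, hκ']
    simp only
    by_cases h1 : S.A i x z0
    · rw [if_pos h1, if_pos ((hA i x x' h).1 h1)]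
    · rw [if_neg h1, if_neg (fun h2 => h1 ((hA i x x' h).2 h2)), h]
  -- the three kinds of products
  have hzero : ∀ a ∈ T, ∀ b ∈ T, b ≠ a → ∏ i, (c i a - c i (τ b)) = 0 := by
    intro a ha b hb hne
    obtain ⟨i, hi⟩ := hE.meet a ha (τ b) (hE.memT b hb) (fun h => hne (hE.inj hb ha h))
    exact prod_eq_zero (mem_univ i) (sub_eq_zero.2 (hκeq i _ _ hi))
  have hne : ∀ a ∈ T, ∏ i, (c i a - c i (τ a)) ≠ 0 := by
    intro a ha
    rw [prod_ne_zero_iff]
    intro i _ h
    have h1 := (hc i _ _).1 (sub_eq_zero.1 h)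
    rw [hκ'] at h1
    simp only at h1
    by_cases h2 : S.A i a z0
    · rw [if_pos h2, if_neg (hno i a ha h2)] at h1
      exact absurd h1 (by simp)
    · rw [if_neg h2] at h1
      by_cases h3 : S.A i (τ a) z0
      · rw [if_pos h3] at h1
        exact absurd h1 (by simp)
      · rw [if_neg h3] at h1
        exact hE.perp a ha i (Option.some.inj h1)
  have hz : ∀ a, ∏ i, (c i a - e i) = 0 := by
    intro a
    obtain ⟨i, hi⟩ := hz0 a
    exact prod_eq_zero (mem_univ i) (sub_eq_zero.2 (he i a hi))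
  have key := gram_bound (F := ℚ) (r := r) (P := Fin r → ℚ)
    (ρ := {a // a ∈ T} ⊕ Unit) (ι := {a // a ∈ T} ⊕ Unit)
    (fun i p => p i)
    (fun a => match a with
      | .inl a => fun i => c i a.1
      | .inr _ => fun i => e i + 1)
    (fun a => match a with
      | .inl a => fun i => c i (τ a.1)
      | .inr _ => e) ?_
  · rw [Fintype.card_sum, Fintype.card_coe, Fintype.card_unit, hE.card] at key
    omega
  · intro v hv
    simp only [Fintype.sum_sum_type, Fintype.sum_unique] at hv
    have hT : ∀ a : {a // a ∈ T}, v (Sum.inl a) = 0 := by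
      intro a
      have h1 := hv (Sum.inl a)
      simp only [hz, zero_mul, add_zero] at h1
      rw [sum_eq_single a] at h1
      · exact (mul_eq_zero.1 h1).resolve_left (hne a.1 a.2)
      · intro b _ hba
        rw [hzero a.1 a.2 b.1 b.2 (fun h => hba (Subtype.ext h)), zero_mul]
      · intro h
        exact absurd (mem_univ a) h
    have hU : v (Sum.inr ()) = 0 := by
      have h1 := hv (Sum.inr ())
      simp only [hT, mul_zero, sum_const_zero, zero_add, add_sub_cancel_left, prod_const_one,
        one_mul] at h1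
      exact h1
    funext a
    rcases a with a | a
    · exact hT a
    · exact hU

end Pool.Agent.MP5f1228.Ex
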