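import Mathlib
import Pool.Agent.Lib.MP_5f1228_co.Ex.ExS
import Pool.Agent.Lib.MP_5f1228_co.Ex.MergeA
import Pool.Agent.Lib.MP_5f1228_co.Ex.MSys
import Pool.Agent.Lib.MP_5f1228_co.Ex.Main1

/-!
# MP_5f1228_co, exact threshold: an extremal system with a universal thin point has a good point
(module EX3)
-/

set_option autoImplicit false

open scoped Classical
open Finset

namespace Pool.Agent.MP5f1228.Ex

open Asy

/-- module EX3 (file Ex/Merge.lean), uses merge_exists, mrg, ex_cert -/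
theorem ex_merge {r : ℕ} (hr : 1 ≤ r) {X Z L : Type} [Fintype X] [Fintype Z] (S : Sys r X Z L)
    (D : ℕ) (h2 : ∀ z, (univ.filter (fun x => ¬ S.Cov x z)).card ≤ D)
    (T : Finset X) (τ : X → X) (hE : ExS S D T τ) (z0 : Z) (hz0 : ∀ x, S.Cov x z0) :
    ∃ y, S.Good y univ := by
  obtain ⟨i0, a0, ha0, ha1, ha2⟩ := merge_exists S D T τ hE z0 hz0
  by_contra hno
  push Not at hno
  set S' := mrg S hE.act z0 i0 with hS'
  set H : Finset X := T.filter (fun a => S.A i0 a z0 ∧ S.A i0 (τ a) z0) with hH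
  have hHT : H ⊆ T := filter_subset _ _
  have hκ' : ∀ i x x', S.κ i x = S.κ i x' → S'.κ i x = S'.κ i x' := by
    intro i x x' h
    show (if i = i0 ∧ S.A i x z0 then none else some (S.κ i x)) =
      (if i = i0 ∧ S.A i x' z0 then none else some (S.κ i x') : Option L)
    by_cases h1 : i = i0 ∧ S.A i x z0
    · rw [if_pos h1, if_pos ⟨h1.1, (hE.A_iff h).1 h1.2⟩]
    · rw [if_neg h1, if_neg (fun h3 => h1 ⟨h3.1, (hE.A_iff h).2 h3.2⟩), h]
  have hκ0 : ∀ x x', S.A i0 x z0 → S.A i0 x' z0 → S'.κ i0 x = S'.κ i0 x' := by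
    intro x x' h h'
    show (if i0 = i0 ∧ S.A i0 x z0 then none else some (S.κ i0 x)) =
      (if i0 = i0 ∧ S.A i0 x' z0 then none else some (S.κ i0 x') : Option L)
    rw [if_pos ⟨rfl, h⟩, if_pos ⟨rfl, h'⟩]
  -- the pairs outside `H`
  have hT1 : ∀ a ∈ T \ H, ∀ i, S'.κ i a ≠ S'.κ i (τ a) := by
    intro a ha i h
    obtain ⟨haT, haH⟩ := mem_sdiff.1 ha
    have h' : (if i = i0 ∧ S.A i a z0 then none else some (S.κ i a)) =
      (if i = i0 ∧ S.A i (τ a) z0 then none else some (S.κ i (τ a)) : Option L) := h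
    by_cases h1 : i = i0 ∧ S.A i a z0
    · rw [if_pos h1] at h'
      by_cases h3 : i = i0 ∧ S.A i (τ a) z0
      · apply haH
        rw [hH, mem_filter]
        refine ⟨haT, ?_, ?_⟩
        · rw [← h1.1]
          exact h1.2
        · rw [← h1.1]
          exact h3.2
      · rw [if_neg h3] at h'
        exact absurd h' (by simp)
    · rw [if_neg h1] at h'
      by_cases h3 : i = i0 ∧ S.A i (τ a) z0
      · rw [if_pos h3] at h'
        exact absurd h' (by simp)
      · rw [if_neg h3] at h'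
        exact hE.perp a haT i (Option.some.inj h')
  have hT2 : ∀ a ∈ T \ H, ∀ a' ∈ T \ H, a ≠ a' → ∃ i, S'.κ i a' = S'.κ i (τ a) := by
    intro a ha a' ha' hne
    have haT := (mem_sdiff.1 ha).1
    have haT' := (mem_sdiff.1 ha').1
    obtain ⟨i, hi⟩ := hE.meet a' haT' (τ a) (hE.memT a haT)
      (fun h => hne (hE.inj haT haT' h))
    exact ⟨i, hκ' i _ _ hi⟩
  -- the points of `H` are universal
  have hU : ∀ y, y ∈ H → S'.Univ y := by
    intro y hy x
    rw [hH, mem_filter] at hy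
    obtain ⟨hyT, hy1, hy2⟩ := hy
    obtain ⟨b, hb, hbx⟩ := hE.typ x
    by_cases h : b = τ y
    · refine ⟨i0, hκ0 x y ?_ hy1⟩
      rw [← h] at hy2
      exact (hE.A_iff (hbx i0)).1 hy2
    · obtain ⟨i, hi⟩ := hE.meet y hyT b hb h
      exact ⟨i, hκ' i _ _ ((hbx i).symm.trans hi.symm)⟩
  have hbad : ∀ y, y ∈ H → ¬ S'.Good y univ := by
    intro y hy h
    rw [hH, mem_filter] at hy
    exact hno y (mrg_good S hE.act z0 i0 y hy.2.1 h)
  obtain ⟨m, W, hTm, hW0, hW1, hW2⟩ := ex_cert hr S' (T \ H) τ hT1 hT2 (fun y => y ∈ H) hU hbad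
  -- counting
  have hcard : (T \ H).card = 2 ^ r - H.card := by
    rw [card_sdiff_of_subset hHT, hE.card]
  have hHle : H.card ≤ 2 ^ r := by
    rw [← hE.card]
    exact card_le_card hHT
  have h2m : 2 * m ≤ H.card := by omega
  have hH1 : 1 ≤ H.card := by
    rw [Nat.one_le_iff_ne_zero, card_ne_zero]
    exact ⟨a0, by rw [hH, mem_filter]; exact ⟨ha0, ha1, ha2⟩⟩
  have hlow : (H.card : ℝ) ≤ ∑ z, W z := by
    have e1 : (H.card : ℝ) ≤ ∑ y ∈ H, ∑ z ∈ univ.filter (fun z => ¬ S'.Cov y z), W z := by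
      have := sum_le_sum hW2
      simpa using this
    refine e1.trans ?_
    have e2 : ∑ y ∈ H, ∑ z ∈ univ.filter (fun z => ¬ S'.Cov y z), W z =
        ∑ z, ∑ y ∈ H, if ¬ S'.Cov y z then W z else 0 := by
      rw [sum_comm]
      refine sum_congr rfl fun y _ => ?_
      rw [sum_filter]
    rw [e2]
    refine sum_le_sum fun z _ => ?_
    rw [← sum_filter, sum_const, nsmul_eq_mul]
    have e3 : (H.filter (fun y => ¬ S'.Cov y z)).card ≤ 1 := by
      rw [card_le_one]
      intro a ha b hb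
      rw [mem_filter] at ha hb
      exact hE.miss_unique h2 (hHT ha.1) (hHT hb.1)
        (fun h => ha.2 (mrg_cov S hE.act z0 i0 a z h))
        (fun h => hb.2 (mrg_cov S hE.act z0 i0 b z h))
    have e4 : ((H.filter (fun y => ¬ S'.Cov y z)).card : ℝ) ≤ 1 := by exact_mod_cast e3
    calc ((H.filter (fun y => ¬ S'.Cov y z)).card : ℝ) * W z ≤ 1 * W z :=
          mul_le_mul_of_nonneg_right e4 (hW0 z)
      _ = W z := one_mul _
  have h2m' : 2 * (m : ℝ) ≤ H.card := by exact_mod_cast h2m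
  have hH1' : (1 : ℝ) ≤ H.card := by exact_mod_cast hH1
  have hκ : (0 : ℝ) < 1 / (6 * r + 1) := by positivity
  have h5 : (H.card : ℝ) ≤ (2 - 1 / (6 * r + 1)) * m := hlow.trans hW1
  rcases Nat.eq_zero_or_pos m with hm | hm
  · rw [hm, Nat.cast_zero, mul_zero] at h5
    linarith
  · have hm' : (1 : ℝ) ≤ m := by exact_mod_cast hm
    have h6 : 0 < 1 / (6 * (r : ℝ) + 1) * m := mul_pos hκ (by linarith)
    have h7 : (2 - 1 / (6 * (r : ℝ) + 1)) * m = 2 * m - 1 / (6 * (r : ℝ) + 1) * m := by ring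
    rw [h7] at h5
    linarith

end Pool.Agent.MP5f1228.Ex
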