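import Mathlib
import Pool.Agent.Lib.MP_5f1228_co.Asy.Defs
import Pool.Agent.Lib.MP_5f1228_co.Num

/-!
# MP_5f1228_co EXACT: choice of the parameters (module PARAMS2)
-/

set_option autoImplicit false

open scoped Classical
open Finset

namespace Pool.Agent.MP5f1228.Ex

open Asy
open Filter

set_option maxHeartbeats 4000000 in
/-- the general form: the main inequality holds with the factor `2 ^ r - γ`, for any `γ > 0` -/
theorem params2_gen (r : ℕ) (hr : 1 ≤ r) (γ : ℝ) (hγ : 0 < γ) (hγ1 : γ ≤ 1) :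
    ∃ M lam q d K n₀ : ℕ,
      q = (M + 1) ^ r ∧ d = lam * r * M ∧ q + 2 * M * (r * M) < lam ∧
      d + q + 2 * M * (r * M) + d * (r * M) < K ∧
      ∀ n : ℕ, n₀ ≤ n → ∃ b t a m e : ℕ,
        n + (M + 1) ^ 2 * t < (M + 1) * b ∧
        e = (n + 2 ^ r - 1) / 2 ^ r ∧
        2 ^ r * e < n + 2 ^ r ∧ (∀ k, 2 ^ r * k < n + 2 ^ r → k ≤ e) ∧ 2 ≤ e ∧
        2 * (d * (r * K)) ≤ e ∧
        ((2 : ℝ) ^ r - γ) * ((e + r * b + a : ℕ) : ℝ) +
          ((d + (r * b * n) / (a + 1) + r * (d + q) ^ 2 * t + r * d * M * K : ℕ) : ℝ) < n ∧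
        d + q + 2 * M * (r * M) + d * (r * M) + m ≤ t ∧ r * n ^ 2 * (r - 1) ^ m < r ^ m := by
  set C : ℝ := 2 ^ r with hC
  have hC0 : 0 < C := by positivity
  have hC1 : 1 ≤ C := one_le_pow₀ (by norm_num)
  set g : ℝ := γ / C with hg
  have hg0 : 0 < g := by positivity
  have hg1 : g ≤ 1 := by
    rw [hg, div_le_one hC0]
    linarith
  have hr0 : (0 : ℝ) < r := by exact_mod_cast (by omega : 0 < r)
  set δ : ℝ := g / (8 * C) with hδ
  have hδ0 : 0 < δ := by positivity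
  set β : ℝ := g * δ / (8 * r) with hβ
  have hβ0 : 0 < β := by positivity
  obtain ⟨M', hM'⟩ := exists_nat_ge (2 / β)
  set M : ℕ := M' + 1 with hM
  have hMβ : 2 ≤ ((M : ℝ) + 1) * β := by
    rw [div_le_iff₀ hβ0] at hM'
    have : (M : ℝ) = M' + 1 := by rw [hM]; push_cast; ring
    rw [this]
    nlinarith
  set q : ℕ := (M + 1) ^ r with hq
  set lam : ℕ := q + 2 * M * (r * M) + 1 with hlam
  set d : ℕ := lam * r * M with hd
  set c0 : ℕ := d + q + 2 * M * (r * M) + d * (r * M) with hc0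
  set K : ℕ := c0 + 1 with hK
  set c1 : ℕ := d + r * (d + q) ^ 2 + r * d * M * K with hc1
  -- conditions on t
  have e1 : ∀ᶠ t : ℕ in atTop, (M + 1) ^ 2 + (M + 1) ≤ t := eventually_ge_atTop _
  have e2 : ∀ᶠ t : ℕ in atTop, (c1 : ℝ) / (g / 8) < t := by
    obtain ⟨k, hk⟩ := exists_nat_gt ((c1 : ℝ) / (g / 8))
    filter_upwards [eventually_ge_atTop k] with t ht
    exact hk.trans_le (by exact_mod_cast ht)
  have e3 : ∀ᶠ t : ℕ in atTop, c0 ≤ t := eventually_ge_atTop _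
  have e4 : ∀ᶠ t : ℕ in atTop, r * ((t - c0 + c0 + 1) ^ 2) ^ 2 *
      (r - 1) ^ (t - c0) < r ^ (t - c0) :=
    (tendsto_sub_atTop_nat c0).eventually (num_exp r c0 hr)
  have e5 : ∀ᶠ t : ℕ in atTop, C / (g / 8) < t := by
    obtain ⟨k, hk⟩ := exists_nat_gt (C / (g / 8))
    filter_upwards [eventually_ge_atTop k] with t ht
    exact hk.trans_le (by exact_mod_cast ht)
  have e6 : ∀ᶠ t : ℕ in atTop, 2 ^ r * (2 + 2 * (d * (r * K))) ≤ t := eventually_ge_atTop _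
  obtain ⟨t0, ht0⟩ := ((e1.and e2).and ((e3.and e4).and (e5.and e6))).exists_forall_of_atTop
  refine ⟨M, lam, q, d, K, t0 ^ 2, rfl, rfl, by omega, by omega, ?_⟩
  intro n hn
  have htn : t0 ≤ Nat.sqrt n := by
    rw [Nat.le_sqrt']
    exact hn
  obtain ⟨⟨h1, h2⟩, ⟨h3, h4⟩, h55, h66⟩ := ht0 _ htn
  set t := Nat.sqrt n with ht
  have hsq : t ^ 2 ≤ n := Nat.sqrt_le' n
  have hlt : n < (t + 1) ^ 2 := Nat.lt_succ_sqrt' n
  have ht1 : 1 ≤ t := by nlinarith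
  have htn' : t ≤ n := by nlinarith
  have hn0 : 0 < n := by nlinarith
  have hn0' : (0 : ℝ) < n := by exact_mod_cast hn0
  obtain ⟨P, hP⟩ : ∃ P : ℕ, P = 2 ^ r := ⟨_, rfl⟩
  rw [← hP] at h66
  have hP0 : 0 < P := by rw [hP]; positivity
  have hPC : (P : ℝ) = C := by rw [hP, hC]; push_cast; rfl
  obtain ⟨e, he⟩ : ∃ e : ℕ, e = (n + P - 1) / P := ⟨_, rfl⟩
  have he1 : P * e < n + P := by
    have h := Nat.mul_div_le (n + P - 1) P
    rw [← he] at h
    omega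
  have he2 : ∀ k, P * k < n + P → k ≤ e := by
    intro k hk
    rw [he, Nat.le_div_iff_mul_le hP0]
    rw [mul_comm]
    omega
  have he3 : n ≤ P * e := by
    have h := Nat.lt_div_mul_add (a := n + P - 1) hP0
    rw [← he] at h
    rw [mul_comm]
    omega
  have he4 : 2 + 2 * (d * (r * K)) ≤ e := by
    have h : P * (2 + 2 * (d * (r * K))) ≤ P * e := h66.trans (htn'.trans he3)
    exact Nat.le_of_mul_le_mul_left h hP0
  rw [← hP]
  refine ⟨⌊β * n⌋₊, t, ⌊δ * n⌋₊, t - c0, e, ?_, he, he1, he2, by omega, by omega, ?_,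
    by omega, ?_⟩
  · have hb : β * n < (⌊β * n⌋₊ : ℝ) + 1 := Nat.lt_floor_add_one _
    have h5 : (n : ℝ) + ((M : ℝ) + 1) ^ 2 * t < ((M : ℝ) + 1) * (⌊β * n⌋₊ : ℝ) := by
      have h6 : ((M : ℝ) + 1) * (β * n) < ((M : ℝ) + 1) * ((⌊β * n⌋₊ : ℝ) + 1) :=
        mul_lt_mul_of_pos_left hb (by positivity)
      have h7 : 2 * (n : ℝ) ≤ ((M : ℝ) + 1) * (β * n) := by
        rw [← mul_assoc]
        exact mul_le_mul_of_nonneg_right hMβ (Nat.cast_nonneg n)
      have h8 : (M + 1) ^ 2 * t + (M + 1) ≤ n := by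
        refine le_trans ?_ hsq
        rw [pow_two t]
        calc (M + 1) ^ 2 * t + (M + 1) ≤ (M + 1) ^ 2 * t + (M + 1) * t := by nlinarith
          _ = ((M + 1) ^ 2 + (M + 1)) * t := by ring
          _ ≤ t * t := Nat.mul_le_mul_right _ h1
      have h9 : ((M : ℝ) + 1) ^ 2 * t + ((M : ℝ) + 1) ≤ n := by exact_mod_cast h8
      nlinarith
    exact_mod_cast h5
  · have hb : (⌊β * n⌋₊ : ℝ) ≤ β * n := Nat.floor_le (by positivity)
    have ha : (⌊δ * n⌋₊ : ℝ) ≤ δ * n := Nat.floor_le (by positivity)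
    have ha' : δ * n < (⌊δ * n⌋₊ : ℝ) + 1 := Nat.lt_floor_add_one _
    have he5 : C * (e : ℝ) ≤ n + C := by
      rw [← hPC]
      exact_mod_cast he1.le
    have he6 : (n : ℝ) ≤ C * (e : ℝ) := by
      rw [← hPC]
      exact_mod_cast he3
    have he7 : g * n ≤ γ * (e : ℝ) := by
      have : g * n ≤ g * (C * (e : ℝ)) := mul_le_mul_of_nonneg_left he6 hg0.le
      calc g * n ≤ g * (C * (e : ℝ)) := this
        _ = γ * (e : ℝ) := by
          rw [hg]
          field_simp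
    have h5 : C * (r * (⌊β * n⌋₊ : ℝ)) ≤ g / 8 * n := by
      calc C * (r * (⌊β * n⌋₊ : ℝ)) ≤ C * (r * (β * n)) := by gcongr
        _ = g * g / 64 * n := by
          rw [hβ, hδ]
          field_simp
          ring
        _ ≤ g / 8 * n := by
          apply mul_le_mul_of_nonneg_right _ hn0'.le
          nlinarith
    have h6 : C * (⌊δ * n⌋₊ : ℝ) ≤ g / 8 * n := by
      calc C * (⌊δ * n⌋₊ : ℝ) ≤ C * (δ * n) := by gcongr
        _ = g / 8 * n := by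
          rw [hδ]
          field_simp
    have h7 : (((r * ⌊β * n⌋₊ * n) / (⌊δ * n⌋₊ + 1) : ℕ) : ℝ) ≤ g / 8 * n := by
      refine Nat.cast_div_le.trans ?_
      push_cast
      rw [div_le_iff₀ (by positivity)]
      calc (r : ℝ) * (⌊β * n⌋₊ : ℝ) * n ≤ r * (β * n) * n := by gcongr
        _ = g / 8 * n * (δ * n) := by
          rw [hβ]
          field_simp
        _ ≤ g / 8 * n * ((⌊δ * n⌋₊ : ℝ) + 1) := by
          apply mul_le_mul_of_nonneg_left ha'.le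
          positivity
    have ht1' : (0 : ℝ) < t := by exact_mod_cast (by omega : 0 < t)
    have hsq' : (t : ℝ) ^ 2 ≤ n := by exact_mod_cast hsq
    have h8 : (c1 : ℝ) * t < g / 8 * n := by
      rw [div_lt_iff₀ (by positivity)] at h2
      calc (c1 : ℝ) * t < t * (g / 8) * t := mul_lt_mul_of_pos_right h2 ht1'
        _ = g / 8 * (t : ℝ) ^ 2 := by ring
        _ ≤ g / 8 * n := by gcongr
    have h8' : C < g / 8 * n := by
      rw [div_lt_iff₀ (by positivity)] at h55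
      have : (t : ℝ) ≤ n := by exact_mod_cast htn'
      calc C < t * (g / 8) := h55
        _ = g / 8 * t := by ring
        _ ≤ g / 8 * n := by gcongr
    have h9 : d + r * (d + q) ^ 2 * t + r * d * M * K ≤ c1 * t := by
      rw [hc1]
      nlinarith [Nat.zero_le d, Nat.zero_le (r * d * M * K)]
    have h9' : (d : ℝ) + r * (d + q) ^ 2 * t + r * d * M * K ≤ c1 * t := by exact_mod_cast h9
    have hb0 : 0 ≤ (⌊β * n⌋₊ : ℝ) := Nat.cast_nonneg _
    have ha0 : 0 ≤ (⌊δ * n⌋₊ : ℝ) := Nat.cast_nonneg _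
    have hrb : 0 ≤ γ * (r * (⌊β * n⌋₊ : ℝ)) := by positivity
    have hra : 0 ≤ γ * (⌊δ * n⌋₊ : ℝ) := by positivity
    have hgn : 0 < g * n := by positivity
    push_cast
    have key : (C - γ) * ((e : ℝ) + r * (⌊β * n⌋₊ : ℝ) + (⌊δ * n⌋₊ : ℝ)) =
        C * e - γ * e + C * (r * (⌊β * n⌋₊ : ℝ)) + C * (⌊δ * n⌋₊ : ℝ) -
          γ * (r * (⌊β * n⌋₊ : ℝ)) - γ * (⌊δ * n⌋₊ : ℝ) := by ring
    rw [key]
    linarith
  · refine lt_of_le_of_lt ?_ h4
    have h5 : t - c0 + c0 = t := Nat.sub_add_cancel h3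
    rw [h5]
    gcongr

/-- module PARAMS2 (file Ex/Params2.lean), from exists_params -/
theorem exists_params2 (r : ℕ) (hr : 1 ≤ r) :
    ∃ M lam q d K n₀ : ℕ,
      q = (M + 1) ^ r ∧ d = lam * r * M ∧ q + 2 * M * (r * M) < lam ∧
      d + q + 2 * M * (r * M) + d * (r * M) < K ∧
      ∀ n : ℕ, n₀ ≤ n → ∃ b t a m e : ℕ,
        n + (M + 1) ^ 2 * t < (M + 1) * b ∧ 2 ^ r * e < n + 2 ^ r ∧
        (∀ k : ℕ, 2 ^ r * k < n + 2 ^ r → k ≤ e) ∧
        (6 * r + 1) * (2 ^ r * (e + r * b + a) + (d + (r * b * n) / (a + 1) +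
          r * (d + q) ^ 2 * t + r * d * M * K)) < (6 * r + 1) * n + (e + r * b + a) ∧
        2 * (d * (r * K)) ≤ e ∧ 2 ≤ e ∧
        d + q + 2 * M * (r * M) + d * (r * M) + m ≤ t ∧ r * n ^ 2 * (r - 1) ^ m < r ^ m := by
  have hA : (0 : ℝ) < 6 * (r : ℝ) + 1 := by positivity
  obtain ⟨M, lam, q, d, K, n₀, h1, h2, h3, h4, h5⟩ := params2_gen r hr (1 / (6 * (r : ℝ) + 1))
    (by positivity) (by rw [div_le_one hA]; linarith [(Nat.cast_nonneg r : (0 : ℝ) ≤ r)])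
  refine ⟨M, lam, q, d, K, n₀, h1, h2, h3, h4, ?_⟩
  intro n hn
  obtain ⟨b, t, a, m, e, g1, -, g2, g3, g4, g5, g6, g7, g8⟩ := h5 n hn
  refine ⟨b, t, a, m, e, g1, g2, g3, ?_, g5, g4, g7, g8⟩
  generalize e + r * b + a = D at g6 ⊢
  generalize d + (r * b * n) / (a + 1) + r * (d + q) ^ 2 * t + r * d * M * K = E at g6 ⊢
  have h6 : (6 * (r : ℝ) + 1) * ((2 : ℝ) ^ r * (D : ℝ) + E) < (6 * (r : ℝ) + 1) * n + D := by
    have h7 := mul_lt_mul_of_pos_left g6 hA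
    have h8 : (6 * (r : ℝ) + 1) * (((2 : ℝ) ^ r - 1 / (6 * (r : ℝ) + 1)) * (D : ℝ) + E) =
        (6 * (r : ℝ) + 1) * ((2 : ℝ) ^ r * (D : ℝ) + E) - D := by
      field_simp
      ring
    rw [h8] at h7
    linarith
  exact_mod_cast h6

end Pool.Agent.MP5f1228.Ex
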