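import Mathlib
import Pool.Agent.Lib.MP_5f1228_co.Ex.ExS

/-!
# MP_5f1228_co, exact threshold: a row which misses few points is a basis row (module STRA)
-/

set_option autoImplicit false

open scoped Classical
open Finset

namespace Pool.Agent.MP5f1228.Ex

open Asy

/-- the vector of the products of the entries of a row -/
def strA_vec {r : ℕ} (u : Fin r → ℚ) : Finset (Fin r) → ℚ := fun t => ∏ i ∈ t, u i

/-- the linear functional given by a point -/
noncomputable def strA_fun {r : ℕ} (y : Fin r → ℚ) : (Finset (Fin r) → ℚ) →ₗ[ℚ] ℚ where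
  toFun c := ∑ t, c t * ∏ i ∈ univ \ t, (-y i)
  map_add' a b := by
    simp only [Pi.add_apply, add_mul, sum_add_distrib]
  map_smul' c a := by
    simp only [Pi.smul_apply, smul_eq_mul, RingHom.id_apply, mul_sum, mul_assoc]

theorem strA_fun_vec {r : ℕ} (u y : Fin r → ℚ) :
    strA_fun y (strA_vec u) = ∏ i, (u i - y i) := by
  change ∑ t, (∏ i ∈ t, u i) * ∏ i ∈ univ \ t, (-y i) = _
  have h : ∏ i, (u i - y i) = ∏ i, (u i + -y i) := by
    simp only [sub_eq_add_neg]
  rw [h, Finset.prod_add, powerset_univ]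

/-- module STRA (file Ex/StrA.lean): a row which misses at most `D` points is one of the basis
rows -/
theorem str_word {r : ℕ} {X : Type} [Fintype X] (x : Fin r → X → ℚ) (T : Finset X) (w : X → X)
    (hcard : T.card = 2 ^ r) (hw1 : ∀ a ∈ T, ∀ i, x i a ≠ x i (w a))
    (hw2 : ∀ a ∈ T, ∀ a' ∈ T, a ≠ a' → ∃ i, x i a' = x i (w a)) (D : ℕ)
    (hcov : ∀ y, ∃ a ∈ T, ∀ i, x i a ≠ x i y)
    (hD : ∀ a ∈ T, (univ.filter (fun y => ∀ i, x i a ≠ x i y)).card ≤ D)
    (h3 : 2 * 2 ^ r * D < 2 * Fintype.card X + D)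
    (u : Fin r → ℚ) (hu : (univ.filter (fun y => ∀ i, u i ≠ x i y)).card ≤ D) :
    ∃ a ∈ T, ∀ i, u i = x i a := by
  let v : {a // a ∈ T} → (Finset (Fin r) → ℚ) := fun a => strA_vec (fun i => x i a.1)
  have hprod : ∀ a : {a // a ∈ T}, ∀ y : X,
      strA_fun (fun i => x i y) (v a) = ∏ i, (x i a.1 - x i y) := fun a y =>
    strA_fun_vec _ _
  have hli : LinearIndependent ℚ v := by
    rw [Fintype.linearIndependent_iff]
    intro g hg b
    have h1 := congrArg (strA_fun (fun i => x i (w b.1))) hg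
    rw [map_sum, map_zero] at h1
    simp only [map_smul, hprod, smul_eq_mul] at h1
    rw [sum_eq_single b] at h1
    · refine (mul_eq_zero.1 h1).resolve_right (prod_ne_zero_iff.2 ?_)
      intro i _ h2
      exact hw1 b.1 b.2 i (sub_eq_zero.1 h2)
    · intro a _ hab
      obtain ⟨i, hi⟩ := hw2 b.1 b.2 a.1 a.2 (fun h => hab (Subtype.ext h.symm))
      rw [prod_eq_zero (mem_univ i) (sub_eq_zero.2 hi), mul_zero]
    · intro h2
      exact absurd (mem_univ b) h2
  have hfin : Fintype.card {a // a ∈ T} = Module.finrank ℚ (Finset (Fin r) → ℚ) := by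
    rw [Fintype.card_coe, hcard, Module.finrank_fintype_fun_eq_card, Fintype.card_finset,
      Fintype.card_fin]
  have hspan := hli.span_eq_top_of_card_eq_finrank' hfin
  have hmem : strA_vec u ∈ Submodule.span ℚ (Set.range v) := by
    rw [hspan]
    exact Submodule.mem_top
  obtain ⟨l, hl⟩ := (Submodule.mem_span_range_iff_exists_fun ℚ).1 hmem
  have hrow : ∀ y : X, ∏ i, (u i - x i y) = ∑ a, l a * ∏ i, (x i a.1 - x i y) := by
    intro y
    have h1 := congrArg (strA_fun (fun i => x i y)) hl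
    rw [map_sum, strA_fun_vec] at h1
    simp only [map_smul, hprod, smul_eq_mul] at h1
    exact h1.symm
  -- private points
  let Y : {a // a ∈ T} → Finset X := fun a =>
    univ.filter (fun y => ∀ a' ∈ T, a' ≠ a.1 → ∃ i, x i a' = x i y)
  have hYown : ∀ a : {a // a ∈ T}, ∀ y ∈ Y a, ∀ i, x i a.1 ≠ x i y := by
    intro a y hy
    obtain ⟨a', ha', h1⟩ := hcov y
    by_cases h2 : a' = a.1
    · rw [← h2]; exact h1
    · obtain ⟨i, hi⟩ := (mem_filter.1 hy).2 a' ha' h2
      exact absurd hi (h1 i)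
  have hYcard : ∀ a : {a // a ∈ T}, D < 2 * (Y a).card := by
    intro a
    have h1 : (univ : Finset X) ⊆ Y a ∪ (T.erase a.1).biUnion
        (fun a' => univ.filter (fun y => ∀ i, x i a' ≠ x i y)) := by
      intro y _
      by_cases hy : y ∈ Y a
      · exact mem_union_left _ hy
      · apply mem_union_right
        have h2 : ¬ ∀ a' ∈ T, a' ≠ a.1 → ∃ i, x i a' = x i y := fun h =>
          hy (mem_filter.2 ⟨mem_univ y, h⟩)
        push Not at h2
        obtain ⟨a', ha', hne, h4⟩ := h2
        exact mem_biUnion.2 ⟨a', mem_erase.2 ⟨hne, ha'⟩, mem_filter.2 ⟨mem_univ y, h4⟩⟩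
    have h2 := (card_le_card h1).trans (card_union_le _ _)
    have h4 : ((T.erase a.1).biUnion
        (fun a' => univ.filter (fun y => ∀ i, x i a' ≠ x i y))).card ≤ (T.erase a.1).card * D :=
      card_biUnion_le_card_mul _ _ _ fun a' ha' => hD a' (mem_of_mem_erase ha')
    rw [card_erase_of_mem a.2, hcard] at h4
    rw [card_univ] at h2
    have h5 : 1 ≤ 2 ^ r := Nat.one_le_two_pow
    obtain ⟨N, hN⟩ : ∃ N, 2 ^ r = N + 1 := ⟨2 ^ r - 1, by omega⟩
    rw [hN, Nat.add_sub_cancel] at h4
    rw [hN] at h3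
    nlinarith
  have hYdisj : ∀ a b : {a // a ∈ T}, a ≠ b → Disjoint (Y a) (Y b) := by
    intro a b hab
    rw [disjoint_left]
    intro y hya hyb
    have h1 := hYown a y hya
    obtain ⟨i, hi⟩ := (mem_filter.1 hyb).2 a.1 a.2 (fun h => hab (Subtype.ext h))
    exact h1 i hi
  have hYsub : ∀ a : {a // a ∈ T}, l a ≠ 0 →
      Y a ⊆ univ.filter (fun y => ∀ i, u i ≠ x i y) := by
    intro a hla y hy
    have h1 := hrow y
    rw [sum_eq_single a] at h1
    · have h2 : ∏ i, (u i - x i y) ≠ 0 := by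
        rw [h1]
        refine mul_ne_zero hla ?_
        rw [prod_ne_zero_iff]
        intro i _ h4
        exact hYown a y hy i (sub_eq_zero.1 h4)
      rw [prod_ne_zero_iff] at h2
      exact mem_filter.2 ⟨mem_univ y, fun i => sub_ne_zero.1 (h2 i (mem_univ i))⟩
    · intro b _ hba
      obtain ⟨i, hi⟩ := (mem_filter.1 hy).2 b.1 b.2 (fun h => hba (Subtype.ext h))
      rw [prod_eq_zero (mem_univ i) (sub_eq_zero.2 hi), mul_zero]
    · intro h2
      exact absurd (mem_univ a) h2
  have huniq : ∀ a b : {a // a ∈ T}, l a ≠ 0 → l b ≠ 0 → a = b := by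
    intro a b ha hb
    by_contra hab
    have h1 := card_le_card (union_subset (hYsub a ha) (hYsub b hb))
    rw [card_union_of_disjoint (hYdisj a b hab)] at h1
    have h2 := hYcard a
    have h4 := hYcard b
    omega
  have hex : ∃ a, l a ≠ 0 := by
    by_contra hno
    push Not at hno
    have h1 := congrFun hl ∅
    have h2 : strA_vec u ∅ = 1 := by
      unfold strA_vec
      exact prod_empty
    rw [h2] at h1
    simp only [hno, zero_smul, sum_const_zero, Pi.zero_apply] at h1
    exact zero_ne_one h1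
  obtain ⟨a, ha⟩ := hex
  have hsingle : ∀ t, l a * v a t = strA_vec u t := by
    intro t
    rw [← hl, Finset.sum_apply, sum_eq_single a]
    · rfl
    · intro b _ hba
      have h1 : l b = 0 := by
        by_contra h2
        exact hba (huniq b a h2 ha)
      rw [h1, zero_smul]
      rfl
    · intro h2
      exact absurd (mem_univ a) h2
  have hla : l a = 1 := by
    have h1 := hsingle ∅
    change l a * (∏ i ∈ (∅ : Finset (Fin r)), x i a.1) = ∏ i ∈ (∅ : Finset (Fin r)), u i at h1
    rw [prod_empty, prod_empty, mul_one] at h1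
    exact h1
  refine ⟨a.1, a.2, fun i => ?_⟩
  have h1 := hsingle {i}
  change l a * (∏ j ∈ ({i} : Finset (Fin r)), x j a.1) = ∏ j ∈ ({i} : Finset (Fin r)), u j at h1
  rw [prod_singleton, prod_singleton, hla, one_mul] at h1
  exact h1.symm

end Pool.Agent.MP5f1228.Ex
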