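import Mathlib
import Pool.Agent.Lib.MP_5f1228_co.Asy.Dyn
import Pool.Agent.Lib.MP_5f1228_co.Asy.SysMain
import Pool.Agent.Lib.MP_5f1228_co.Ex.ExS
import Pool.Agent.Lib.MP_5f1228_co.Ex.StrA

/-!
# MP_5f1228_co, exact threshold: the extremal structure (module STRB)
-/

set_option autoImplicit false

open scoped Classical
open Finset

namespace Pool.Agent.MP5f1228.Ex

open Asy

/-- the set of points which only `a` can dominate -/
theorem StrB_priv {r : ℕ} {X Z L : Type} [Fintype X] (S : Sys r X Z L) (D : ℕ)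
    (h1 : ∀ x, (univ.filter (fun x' => ∀ i, S.κ i x ≠ S.κ i x')).card ≤ D) (T : Finset X)
    (h3 : 2 * (T.card * D) < 2 * Fintype.card X + D) (a : X) (ha : a ∈ T) :
    D < 2 * (univ.filter (fun y => ∀ a' ∈ T, a' ≠ a → ∃ i, S.κ i a' = S.κ i y)).card := by
  have e1 : (univ.filter (fun y => ¬ ∀ a' ∈ T, a' ≠ a → ∃ i, S.κ i a' = S.κ i y)) ⊆
      (T.erase a).biUnion (fun a' => univ.filter (fun x' => ∀ i, S.κ i a' ≠ S.κ i x')) := by
    intro y hy
    have h4 := (mem_filter.1 hy).2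
    push Not at h4
    obtain ⟨a', ha', hne, h5⟩ := h4
    rw [mem_biUnion]
    exact ⟨a', mem_erase.2 ⟨hne, ha'⟩, mem_filter.2 ⟨mem_univ _, h5⟩⟩
  have e2 : (univ.filter (fun y => ¬ ∀ a' ∈ T, a' ≠ a → ∃ i, S.κ i a' = S.κ i y)).card ≤
      (T.card - 1) * D := by
    refine (card_le_card e1).trans (card_biUnion_le.trans ?_)
    rw [← card_erase_of_mem ha, ← smul_eq_mul, ← sum_const]
    exact sum_le_sum fun a' _ => h1 a'
  have e3 := card_filter_add_card_filter_not (s := (univ : Finset X))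
    (fun y => ∀ a' ∈ T, a' ≠ a → ∃ i, S.κ i a' = S.κ i y)
  rw [card_univ] at e3
  have hpos : 1 ≤ T.card := card_pos.2 ⟨a, ha⟩
  have e4 : (T.card - 1) * D + D = T.card * D := by
    rw [Nat.sub_mul, one_mul]
    have : D ≤ T.card * D := Nat.le_mul_of_pos_left D hpos
    omega
  omega

/-- module STRB -/
theorem ex_struct {r : ℕ} {X Z L : Type} [Fintype X] [Fintype Z] (S : Sys r X Z L) (D : ℕ)
    (h1 : ∀ x, (univ.filter (fun x' => ∀ i, S.κ i x ≠ S.κ i x')).card ≤ D)
    (h2 : ∀ z, (univ.filter (fun x => ¬ S.Cov x z)).card ≤ D)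
    (hU : ∀ y, ¬ S.Univ y) (h3 : 2 * 2 ^ r * D < 2 * Fintype.card X + D) (hD : 2 ≤ D) :
    ∃ (T : Finset X) (τ : X → X), ExS S D T τ := by
  have h3' : 2 * (2 ^ r * D) < 2 * Fintype.card X + D := by
    rw [← mul_assoc]
    exact h3
  obtain ⟨T, w, hT1, hT2, hT3⟩ := SysMain_min S
  have hTle : T.card ≤ 2 ^ r := by
    have h4 := mi S T w hT1 hT2 0 (fun l => l.elim0) (fun l => l.elim0) (fun l => l.elim0)
      (fun l => l.elim0) (fun j => j.elim0) (fun j => j.elim0) (fun l => l.elim0)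
    omega
  have hXle : Fintype.card X ≤ T.card * D := by
    have e1 : (univ : Finset X) ⊆
        T.biUnion (fun a => univ.filter (fun x' => ∀ i, S.κ i a ≠ S.κ i x')) := by
      intro b _
      obtain ⟨a, ha, hab⟩ := hT3 b (hU b)
      rw [mem_biUnion]
      exact ⟨a, ha, mem_filter.2 ⟨mem_univ _, hab⟩⟩
    rw [← card_univ]
    refine (card_le_card e1).trans (card_biUnion_le.trans ?_)
    rw [← smul_eq_mul, ← sum_const]
    exact sum_le_sum fun a _ => h1 a
  have hTc : T.card = 2 ^ r := by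
    by_contra hne
    have h4 : T.card + 1 ≤ 2 ^ r := by omega
    have h5 : (T.card + 1) * D ≤ 2 ^ r * D := Nat.mul_le_mul_right _ h4
    rw [add_mul, one_mul] at h5
    omega
  have hpriv : ∀ a ∈ T, D < 2 * (univ.filter (fun y => ∀ a' ∈ T, a' ≠ a →
      ∃ i, S.κ i a' = S.κ i y)).card := fun a ha => StrB_priv S D h1 T (by rw [hTc]; exact h3') a ha
  -- letters
  have hcode : ∀ i, ∃ x : X → ℚ, ∀ p q, x p = x q ↔ S.κ i p = S.κ i q := fun i =>
    dyn_code (F := ℚ) (Setoid.ker (S.κ i))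
  choose x hx using hcode
  have hword : ∀ u : Fin r → ℚ, (univ.filter (fun y => ∀ i, u i ≠ x i y)).card ≤ D →
      ∃ a ∈ T, ∀ i, u i = x i a := by
    intro u hu
    refine str_word x T w hTc ?_ ?_ D ?_ ?_ h3 u hu
    · intro a ha i h
      exact hT1 a ha i ((hx i _ _).1 h)
    · intro a ha a' ha' hne
      obtain ⟨i, hi⟩ := hT2 a ha a' ha' hne
      exact ⟨i, (hx i _ _).2 hi⟩
    · intro y
      obtain ⟨a, ha, h⟩ := hT3 y (hU y)
      exact ⟨a, ha, fun i hi => h i ((hx i _ _).1 hi)⟩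
    · intro a _
      have h4 := h1 a
      simpa only [ne_eq, hx] using h4
  have htyp : ∀ y, ∃ a ∈ T, ∀ i, S.κ i a = S.κ i y := by
    intro y
    obtain ⟨a, ha, h⟩ := hword (fun i => x i y) (by
      have h4 := h1 y
      simpa only [ne_eq, hx] using h4)
    exact ⟨a, ha, fun i => ((hx i _ _).1 (h i)).symm⟩
  -- the matching
  have hτ : ∀ a, ∃ b ∈ T, ∀ i, S.κ i b = S.κ i (w a) := fun a => htyp (w a)
  choose τ hτT hτw using hτ
  have hperp : ∀ a ∈ T, ∀ i, S.κ i a ≠ S.κ i (τ a) := by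
    intro a ha i h
    exact hT1 a ha i (h.trans (hτw a i))
  have hmeet' : ∀ a ∈ T, ∀ a' ∈ T, a ≠ a' → ∃ i, S.κ i a' = S.κ i (τ a) := by
    intro a ha a' ha' hne
    obtain ⟨i, hi⟩ := hT2 a ha a' ha' hne
    exact ⟨i, hi.trans (hτw a i).symm⟩
  have hinj : Set.InjOn τ (T : Set X) := by
    intro a ha a' ha' h
    by_contra hne
    obtain ⟨i, hi⟩ := hmeet' a ha a' ha' hne
    rw [h] at hi
    exact hperp a' ha' i hi
  have hsurj : ∀ b ∈ T, ∃ a ∈ T, τ a = b := by
    have h4 : Set.SurjOn τ (T : Set X) (T : Set X) :=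
      Finset.surjOn_of_injOn_of_card_le τ (fun a _ => hτT a) hinj le_rfl
    intro b hb
    obtain ⟨a, ha, hab⟩ := h4 hb
    exact ⟨a, ha, hab⟩
  have hmeet : ∀ a ∈ T, ∀ b ∈ T, b ≠ τ a → ∃ i, S.κ i a = S.κ i b := by
    intro a ha b hb hne
    obtain ⟨a', ha', rfl⟩ := hsurj b hb
    have hne' : a' ≠ a := fun e => hne (by rw [e])
    exact hmeet' a' ha' a ha hne'
  have hbig : ∀ a ∈ T, D < 2 * (univ.filter (fun y => ∀ i, S.κ i a = S.κ i y)).card := by
    intro a ha
    obtain ⟨a', ha', rfl⟩ := hsurj a ha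
    refine lt_of_lt_of_le (hpriv a' ha') (Nat.mul_le_mul_left 2 (card_le_card ?_))
    intro y hy
    rw [mem_filter] at hy ⊢
    refine ⟨mem_univ _, ?_⟩
    obtain ⟨b, hb, hby⟩ := htyp y
    obtain ⟨a'', ha'', hc⟩ := hT3 y (hU y)
    have h5 : a'' = a' := by
      by_contra hne
      obtain ⟨i, hi⟩ := hy.2 a'' ha'' hne
      exact hc i hi
    subst h5
    have h6 : b = τ a'' := by
      by_contra hne
      obtain ⟨i, hi⟩ := hmeet a'' ha'' b hb hne
      exact hc i (hi.trans (hby i))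
    subst h6
    exact hby
  have hact : ∀ i y, S.act i y := by
    intro i y
    by_contra hn
    obtain ⟨a, ha, hay⟩ := htyp y
    have h4 := hbig a ha
    have h5 : (univ.filter (fun y' => ∀ i, S.κ i a = S.κ i y')) ⊆ {y} := by
      intro y' hy'
      rw [mem_singleton]
      exact (S.own i y y' hn ((hay i).symm.trans ((mem_filter.1 hy').2 i))).symm
    have h6 := card_le_card h5
    rw [card_singleton] at h6
    omega
  refine ⟨T, τ, hTc, fun a _ => hτT a, hperp, hmeet, htyp, hact, hbig, ?_⟩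
  intro z hz
  -- a value outside the range
  have hout : ∀ i, ∃ v : ℚ, ∀ y, v ≠ x i y := by
    intro i
    obtain ⟨v, hv⟩ := Infinite.exists_notMem_finset (univ.image (x i))
    exact ⟨v, fun y h => hv (mem_image.2 ⟨y, mem_univ _, h.symm⟩)⟩
  choose v hv using hout
  let u : Fin r → ℚ := fun i => if h : ∃ y, S.A i y z then x i h.choose else v i
  have hu1 : ∀ i y, S.A i y z → u i = x i y := by
    intro i y hy
    have h4 : ∃ y, S.A i y z := ⟨y, hy⟩
    simp only [u, dif_pos h4]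
    exact (hx i _ _).2 (hz i _ _ h4.choose_spec hy)
  have hu2 : (univ.filter (fun y => ∀ i, u i ≠ x i y)).card ≤ D := by
    refine (card_le_card ?_).trans (h2 z)
    intro y hy
    rw [mem_filter] at hy ⊢
    refine ⟨mem_univ _, ?_⟩
    rintro ⟨i, hi⟩
    exact hy.2 i (hu1 i y hi)
  obtain ⟨a, ha, hua⟩ := hword u hu2
  refine ⟨a, ha, fun i => ?_⟩
  have h4 : ∃ y, S.A i y z := by
    by_contra hn
    have h5 : u i = v i := by simp only [u, dif_neg hn]
    exact hv i a (h5.symm.trans (hua i))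
  obtain ⟨y, hy⟩ := h4
  have h5 : x i y = x i a := (hu1 i y hy).symm.trans (hua i)
  exact S.A_congr i y a z (hact i y) ((hx i _ _).1 h5) hy

end Pool.Agent.MP5f1228.Ex
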