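import Mathlib
import Pool.Agent.Lib.MP_5f1228_co.Asy.Defs
import Pool.Agent.Lib.MP_5f1228_co.Asy.SysMain
import Pool.Agent.Lib.MP_5f1228_co.Asy.Res2
import Pool.Agent.Lib.MP_5f1228_co.Asy.Cls
import Pool.Agent.Lib.MP_5f1228_co.Asy.Core0
import Pool.Agent.Lib.MP_5f1228_co.Asy.Reps
import Pool.Agent.Lib.MP_5f1228_co.Asy.TypCount
import Pool.Agent.Lib.MP_5f1228_co.Asy.GSys
import Pool.Agent.Lib.MP_5f1228_co.Asy.Lift
import Pool.Agent.Lib.MP_5f1228_co.Tree
import Pool.Agent.Lib.MP_5f1228_co.Ex.ExS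
import Pool.Agent.Lib.MP_5f1228_co.Ex.Main1
import Pool.Agent.Lib.MP_5f1228_co.Ex.StrB
import Pool.Agent.Lib.MP_5f1228_co.Ex.Merge
import Pool.Agent.Lib.MP_5f1228_co.Ex.GraphU
import Pool.Agent.Lib.MP_5f1228_co.Ex.Params2

/-!
# MP_5f1228_co: the exact threshold for large `n` and all numbers of colours

For every `r ≥ 1` there is `n₀` such that every `r`-coloured graph on `n ≥ n₀` vertices with
`(1 - 2^(-r)) n < δ(G) + 1` can be partitioned into at most `r` monochromatic trees of distinct
colours.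
-/

set_option autoImplicit false

open scoped Classical
open Finset

namespace Pool.Agent.MP5f1228.Ex

open Asy
open Pool.Agent.MP5f1228B (Con)

/-- module FINAL (file Ex/Final.lean) -/
theorem tp_exact (r : ℕ) (hr : 1 ≤ r) :
    ∃ n₀ : ℕ, ∀ (V : Type) [Fintype V] [DecidableEq V] (G : SimpleGraph V)
      [DecidableRel G.Adj] (c : Sym2 V → Fin r), n₀ ≤ Fintype.card V →
      (∀ v, (1 - 1 / 2 ^ r) * (Fintype.card V : ℝ) < (G.degree v : ℝ) + 1) →
      ∃ H : Fin r → G.Subgraph, (∀ i, H i = ⊥ ∨ (H i).coe.IsTree) ∧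
        (∀ i v w, (H i).Adj v w → c s(v, w) = i) ∧ ∀ v, ∃! i, v ∈ (H i).verts := by
  obtain ⟨M, lam, q, d, K, n₀, hq, hd, hlam, hK, hn⟩ := exists_params2 r hr
  refine ⟨n₀, ?_⟩
  intro V _ _ G _ c hcard hdeg
  obtain ⟨b, t, a, m, e, h1, he1, he2, h2, he4, he3, h3, h4⟩ := hn (Fintype.card V) hcard
  have hM : IndB G c b t M := indB_of_num G c h1
  obtain ⟨D0, hD0, hrob⟩ := exists_rob G c b t lam hM
  obtain ⟨R, hR, hRc, hRep⟩ := exists_reps hM D0
  rw [← hd] at hD0
  rw [← hq] at hRc
  -- degrees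
  have hnon : ∀ v, (univ.filter (fun w => ¬ G.Adj v w)).card ≤ e := by
    intro v
    apply he2
    have h5 : (univ.filter (fun w => ¬ G.Adj v w)).card + G.degree v = Fintype.card V := by
      have h6 := card_filter_add_card_filter_not (s := (univ : Finset V)) (fun w => G.Adj v w)
      rw [card_univ] at h6
      have h7 : (univ.filter (fun w => G.Adj v w)).card = G.degree v := by
        rw [← SimpleGraph.card_neighborFinset_eq_degree]
        congr 1
        ext w
        simp
      omega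
    have h6 := hdeg v
    have h7 : ((univ.filter (fun w => ¬ G.Adj v w)).card : ℝ) + G.degree v
        = Fintype.card V := by exact_mod_cast h5
    have h8 : (0 : ℝ) < 2 ^ r := by positivity
    have h9 : ((univ.filter (fun w => ¬ G.Adj v w)).card : ℝ) < 1 / 2 ^ r * Fintype.card V + 1 := by
      linarith
    have h10 : (2 : ℝ) ^ r * ((univ.filter (fun w => ¬ G.Adj v w)).card : ℝ) <
        Fintype.card V + 2 ^ r := by
      calc (2 : ℝ) ^ r * ((univ.filter (fun w => ¬ G.Adj v w)).card : ℝ)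
          < 2 ^ r * (1 / 2 ^ r * Fintype.card V + 1) := mul_lt_mul_of_pos_left h9 h8
        _ = Fintype.card V + 2 ^ r := by field_simp
    exact_mod_cast h10
  -- the system
  have hT := typ_count hM D0 R a K
  have hZ : (D0 ∪ R).card ≤ d + q := (card_union_le _ _).trans (Nat.add_le_add hD0 hRc)
  have hX : Fintype.card {v // Typ G c b t D0 R a K v} +
      (univ.filter (fun v => ¬ Typ G c b t D0 R a K v)).card = Fintype.card V := by
    rw [Fintype.card_subtype, ← card_univ,
      ← card_filter_add_card_filter_not (s := (univ : Finset V)) (Typ G c b t D0 R a K)]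
  have hT' : (univ.filter (fun v => ¬ Typ G c b t D0 R a K v)).card ≤
      d + (r * b * Fintype.card V) / (a + 1) + r * (d + q) ^ 2 * t + r * d * M * K := by
    refine hT.trans ?_
    gcongr
  set J := d + (r * b * Fintype.card V) / (a + 1) + r * (d + q) ^ 2 * t + r * d * M * K with hJ
  set D := e + r * b + a with hDdef
  set x := Fintype.card {v // Typ G c b t D0 R a K v} with hx
  have h5 : (6 * r + 1) * (2 ^ r * D) < (6 * r + 1) * x + D := by
    have h6 : Fintype.card V ≤ x + J := by omega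
    have h7 : (6 * r + 1) * Fintype.card V ≤ (6 * r + 1) * (x + J) := Nat.mul_le_mul_left _ h6
    have h8 : (6 * r + 1) * (2 ^ r * D + J) = (6 * r + 1) * (2 ^ r * D) + (6 * r + 1) * J := by
      ring
    have h9 : (6 * r + 1) * (x + J) = (6 * r + 1) * x + (6 * r + 1) * J := by ring
    omega
  have h6 : 2 * 2 ^ r * D < 2 * x + D := by
    rcases Nat.lt_or_ge x (2 ^ r * D) with h7 | h7
    · obtain ⟨k, hk⟩ := Nat.exists_eq_add_of_lt h7
      have h8 : (6 * r + 1) * (k + 1) < D := by
        rw [hk] at h5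
        have h9 : (6 * r + 1) * (x + k + 1) = (6 * r + 1) * x + (6 * r + 1) * (k + 1) := by ring
        omega
      have h9 : 2 * (k + 1) ≤ (6 * r + 1) * (k + 1) := Nat.mul_le_mul_right _ (by omega)
      have h10 : 2 * 2 ^ r * D = 2 * (2 ^ r * D) := by ring
      omega
    · have h10 : 2 * 2 ^ r * D = 2 * (2 ^ r * D) := by ring
      omega
  have hgood : ∃ y, (gsys G c b t D0 R hR a K).Good y univ := by
    by_contra hno
    push Not at hno
    have g1 := fun x => gsys_h1 (G := G) (c := c) (b := b) (t := t) (a := a) (K := K) hR hnon x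
    have g2 : ∀ z, (univ.filter (fun x => ¬ (gsys G c b t D0 R hR a K).Cov x z)).card ≤
        D := fun z => (gsys_h2 hR hnon z).trans (Nat.le_add_right _ _)
    rcases ex_main1 hr (gsys G c b t D0 R hR a K) D g1 g2 hno with hU | hU
    · obtain ⟨T, τ, hE⟩ := ex_struct (gsys G c b t D0 R hR a K) D g1 g2 hU h6 (by omega)
      obtain ⟨z0, hz0⟩ := exists_univ_thin hR hRep hnon he1 T τ hE (by
        have h7 : 2 * (D0.card * (r * K)) ≤ 2 * (d * (r * K)) := by gcongr
        omega)
      obtain ⟨y, hy⟩ := ex_merge hr _ D g2 T τ hE z0 hz0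
      exact hno y hy
    · exact absurd hU (not_le.mpr h5)
  obtain ⟨y, hy⟩ := hgood
  obtain ⟨V0, hc, hdj, hdm, hs⟩ := lift (M := M) (lam := lam) hM hrob hR hRep
    (lt_of_le_of_lt (by gcongr) hlam) (lt_of_le_of_lt (by gcongr) hK) y hy
  have hs' : ∑ i, (V0 i).card ≤ d + q + 2 * M * (r * M) + d * (r * M) := by
    refine hs.trans ?_
    gcongr
  obtain ⟨F, hF⟩ := exists_partition2 G c (m := m) V0 hc hdj hdm (by omega) h4
  exact trees_of_partition G c F hF

end Pool.Agent.MP5f1228.Ex
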